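import Mathlib
import Pool.Agent.Q51.VX.Asm
import Pool.Agent.Q51.HG.SmoothCI

set_option autoImplicit false

/-!
# Vojta's inequality with multiplier ideal correction, without exceptional set, for all monomial
ideals in the components of the boundary of 100 percent of the pairs, at short sums of `S`-units

Let `F 1, …, F q` be forms of degrees `d 1, …, d q` in `n + 1` variables with integral coefficients
and `C` a subset of `{1, …, q}` with `∑_{c ∈ C} (d c + 1) ≤ 2 n`. Let `V` be the complete intersection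
`F c = 0`, `c ∈ C`, in projective `n`-space over `ℚ` (all of it, if `C` is empty) and `D b`, `b ∉ C`,
the divisor `F b = 0` of `V`. The canonical class `K` of `V` is `∑_{c ∈ C} d c - n - 1` times the
hyperplane class.

For every `r` there is a nonzero polynomial `h` with integral coefficients in the coefficients of the
forms, such that for ALL forms with `h (F) ≠ 0` (that is, for 100 percent of the systems) the
hypersurfaces are smooth and meet transversally, and for all finite sets `S` of primes, all `B` and all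
`ε > 0` there are `δ > 0` and a constant such that ALL primitive integer points `x` of `V` off the
`D b` which are sums of `r` `S`-units, with integral vectors of size at most `B H(x) ^ δ` as
coefficients, and ALL ideals `I` generated by monomials in the `F b`, `b ∉ C`, satisfy

  `h_K(x) + ∑_{v ∈ S ∪ {∞}} λ_I(x, v) - ∑_{v ∈ S ∪ {∞}} λ_{I⁻}(x, v) ≤ (dim V - 1 + ε) h(x) + O(1)`,

where `I⁻` is the ideal given by Howald's formula, and where the constant does not depend on the ideal.
There is no exceptional set.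
-/

namespace Pool.Agent.Results.MP_8865d3_nt.AllMonomialIdeals

open MvPolynomial

/-- The indices of the coefficients of `q` forms of degrees `d i` in `n + 1` variables. -/
abbrev Index (n : ℕ) {q : ℕ} (d : Fin q → ℕ) : Type :=
  (i : Fin q) × {α : Fin (n + 1) →₀ ℕ // α.degree = d i}

/-- The value of the polynomial `h` at the coefficients of the forms `F i`. -/
noncomputable def valueAt {n q : ℕ} {d : Fin q → ℕ} (h : MvPolynomial (Index n d) ℤ)
    (F : Fin q → MvPolynomial (Fin (n + 1)) ℤ) : ℤ :=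
  aeval (fun x : Index n d => coeff x.2.1 (F x.1)) h

/-- The hypersurfaces `F i = 0` are smooth and meet transversally: in every point of projective space
(over any field `Ω` of characteristic zero) the gradients of those `F i` that vanish there are linearly
independent. -/
def Transversal {n q : ℕ} (F : Fin q → MvPolynomial (Fin (n + 1)) ℤ) : Prop :=
  ∀ (Ω : Type) [Field Ω] [CharZero Ω] (x : Fin (n + 1) → Ω), x ≠ 0 →
    LinearIndependent Ω (fun i : {i // aeval x (F i) = 0} => fun k => aeval x (pderiv k (F i.1)))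

/-- `x` is a primitive integer vector; every rational point of a projective space is represented by
exactly two of them, `x` and `-x` -/
def IsPrimitive {n : ℕ} (x : Fin (n + 1) → ℤ) : Prop :=
  Finset.univ.gcd x = 1

/-- `max |x_i|`, the multiplicative height of the point given by a primitive `x` -/
def height {n : ℕ} (x : Fin (n + 1) → ℤ) : ℕ :=
  Finset.univ.sup (fun i => (x i).natAbs)

/-- `‖F‖₁`, the sum of the absolute values of the coefficients of `F`. -/
noncomputable def norm1 {n : ℕ} (F : MvPolynomial (Fin (n + 1)) ℤ) : ℝ :=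
  ∑ α ∈ F.support, |((coeff α F : ℤ) : ℝ)|

/-- The local height at infinity of the divisor `F = 0`, for a form `F` of degree `k`, at the point
with homogeneous coordinates `x`: `log (‖F‖₁ |x| ^ k / |F(x)|)`. It is at least `0`. -/
noncomputable def localInf {n : ℕ} (F : MvPolynomial (Fin (n + 1)) ℤ) (k : ℕ)
    (x : Fin (n + 1) → ℤ) : ℝ :=
  Real.log (norm1 F) + k * Real.log (height x) - Real.log |((eval x F : ℤ) : ℝ)|

/-- The local height at the prime `p` of the divisor `F = 0` at the point with coprime homogeneous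
coordinates `x`: `v_p(F(x)) log p`. -/
noncomputable def localP {n : ℕ} (p : ℕ) (F : MvPolynomial (Fin (n + 1)) ℤ)
    (x : Fin (n + 1) → ℤ) : ℝ :=
  (padicValInt p (eval x F) : ℝ) * Real.log p

/-- The local height of the ideal generated by the monomials `∏ F_j ^ b_j`, `b ∈ T`, when the divisors
`F_j = 0` have local heights `L j`: the least of the numbers `∑ b_j L j`. -/
noncomputable def localIdeal {J : Type} [Fintype J] (T : Set (J → ℕ)) (L : J → ℝ) : ℝ :=
  ⨅ b : T, ∑ j, ((b.1 j : ℕ) : ℝ) * L j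

/-- The exponents `b` for which `b + (1, …, 1)` lies in the Newton polyhedron (convex hull plus the
positive orthant) of `E`. By Howald's formula they are the exponents of the ideal `I⁻` for the ideal
`I` generated by the monomials with exponents in `E`, for divisors with normal crossings. -/
def minus {J : Type} [Fintype J] (E : Finset (J → ℕ)) : Set (J → ℕ) :=
  {b | ∃ w : (J → ℕ) → ℝ, (∀ a ∈ E, 0 ≤ w a) ∧ ∑ a ∈ E, w a = 1 ∧
    ∀ j, ∑ a ∈ E, w a * (a j : ℝ) ≤ (b j : ℝ) + 1}

/-- `∑_v (λ_I(x,v) - λ_{I⁻}(x,v))` over the places `∞` and `p ∈ S`, for the ideal `I` generated by the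
monomials in the `F b`, `b ∉ C`, with exponents in `E`. -/
noncomputable def gap {n q : ℕ} (C : Finset (Fin q)) (E : Finset ({b // b ∉ C} → ℕ)) (S : Finset ℕ)
    (d : Fin q → ℕ) (F : Fin q → MvPolynomial (Fin (n + 1)) ℤ) (x : Fin (n + 1) → ℤ) : ℝ :=
  (localIdeal (E : Set ({b // b ∉ C} → ℕ)) (fun b => localInf (F b) (d b) x) -
      localIdeal (minus E) (fun b => localInf (F b) (d b) x)) +
    ∑ p ∈ S, (localIdeal (E : Set ({b // b ∉ C} → ℕ)) (fun b => localP p (F b) x) -
      localIdeal (minus E) (fun b => localP p (F b) x))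

/-- The height for the canonical class of the complete intersection `F c = 0`, `c ∈ C`. -/
noncomputable def canonicalHeight (n : ℕ) {q : ℕ} (d : Fin q → ℕ) (C : Finset (Fin q))
    (x : Fin (n + 1) → ℤ) : ℝ :=
  (∑ c ∈ C, (d c : ℝ) - (n + 1)) * Real.log (height x)

/-- `u` is an `S`-unit: plus or minus a product of powers (with integer exponents) of the primes in
`S` -/
def IsSUnit (S : Finset ℕ) (u : ℚ) : Prop :=
  ∃ (σ : ℤ) (e : ℕ → ℤ), (σ = 1 ∨ σ = -1) ∧ u = σ * ∏ p ∈ S, (p : ℚ) ^ e p

/-- The coordinates `x i` are sums of `r` `S`-units `u j` (the same for all coordinates) with integer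
coefficients of absolute value at most `B * H(x) ^ δ`. -/
def IsShortSum {n : ℕ} (S : Finset ℕ) (r : ℕ) (B δ : ℝ) (x : Fin (n + 1) → ℤ) : Prop :=
  ∃ (u : Fin r → ℚ) (c : Fin r → Fin (n + 1) → ℤ), (∀ j, IsSUnit S (u j)) ∧
    (∀ j i, |(c j i : ℝ)| ≤ B * (height x : ℝ) ^ δ) ∧ ∀ i, (x i : ℚ) = ∑ j, u j * c j i

/-! ### the ideals -/

theorem gap_le {J : Type} [Fintype J] (E : Finset (J → ℕ)) (hE : E.Nonempty) (L : J → ℝ)
    (hL : ∀ j, 0 ≤ L j) :
    localIdeal (E : Set (J → ℕ)) L - localIdeal (minus E) L ≤ ∑ j, L j := by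
  classical
  obtain ⟨a0, ha0⟩ := hE
  have hne : Nonempty (minus E) := ⟨⟨a0, fun a => if a = a0 then 1 else 0,
    fun a _ => by dsimp only; split_ifs <;> norm_num, by simp [ha0], fun j => by
      rw [Finset.sum_eq_single a0]
      · simp
      · intro a _ ha
        simp [ha]
      · intro h
        exact absurd ha0 h⟩⟩
  have hbdd : BddBelow (Set.range fun b : (E : Set (J → ℕ)) => ∑ j, ((b.1 j : ℕ) : ℝ) * L j) := by
    refine ⟨0, ?_⟩
    rintro _ ⟨b, rfl⟩
    exact Finset.sum_nonneg fun j _ => mul_nonneg (Nat.cast_nonneg _) (hL j)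
  have hle : ∀ a ∈ E, localIdeal (E : Set (J → ℕ)) L ≤ ∑ j, ((a j : ℕ) : ℝ) * L j := fun a ha =>
    ciInf_le hbdd ⟨a, ha⟩
  have hmin : localIdeal (E : Set (J → ℕ)) L - ∑ j, L j ≤ localIdeal (minus E) L := by
    refine le_ciInf ?_
    rintro ⟨b, w, hw0, hw1, hwb⟩
    have h1 : localIdeal (E : Set (J → ℕ)) L ≤ ∑ a ∈ E, w a * ∑ j, ((a j : ℕ) : ℝ) * L j := by
      calc localIdeal (E : Set (J → ℕ)) L = ∑ a ∈ E, w a * localIdeal (E : Set (J → ℕ)) L := by
            rw [← Finset.sum_mul, hw1, one_mul]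
        _ ≤ _ := Finset.sum_le_sum fun a ha => mul_le_mul_of_nonneg_left (hle a ha) (hw0 a ha)
    have h2 : ∑ a ∈ E, w a * ∑ j, ((a j : ℕ) : ℝ) * L j =
        ∑ j, (∑ a ∈ E, w a * (a j : ℝ)) * L j := by
      simp_rw [Finset.mul_sum, Finset.sum_mul]
      rw [Finset.sum_comm]
      exact Finset.sum_congr rfl fun j _ => Finset.sum_congr rfl fun a _ => by ring
    have h3 : ∑ j, (∑ a ∈ E, w a * (a j : ℝ)) * L j ≤ ∑ j, ((b j : ℝ) + 1) * L j :=
      Finset.sum_le_sum fun j _ => mul_le_mul_of_nonneg_right (hwb j) (hL j)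
    have h4 : ∑ j, ((b j : ℝ) + 1) * L j = ∑ j, (b j : ℝ) * L j + ∑ j, L j := by
      rw [← Finset.sum_add_distrib]
      exact Finset.sum_congr rfl fun j _ => by ring
    simp only
    linarith
  linarith

theorem abs_eval_le {n : ℕ} (F : MvPolynomial (Fin (n + 1)) ℤ) (k : ℕ) (hF : F.IsHomogeneous k)
    (x : Fin (n + 1) → ℤ) : |((eval x F : ℤ) : ℝ)| ≤ norm1 F * (height x : ℝ) ^ k := by
  rw [eval_eq']
  push_cast
  refine (Finset.abs_sum_le_sum_abs _ _).trans ?_
  unfold norm1
  rw [Finset.sum_mul]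
  refine Finset.sum_le_sum fun α hα => ?_
  rw [abs_mul]
  refine mul_le_mul_of_nonneg_left ?_ (abs_nonneg _)
  rw [Finset.abs_prod]
  have h1 : ∑ i, α i = k := by
    have h2 := hF (mem_support_iff.1 hα)
    rw [Finsupp.weight_apply, Finsupp.sum_fintype _ _ (by simp)] at h2
    simpa using h2
  rw [← h1, ← Finset.prod_pow_eq_pow_sum]
  refine Finset.prod_le_prod (fun i _ => abs_nonneg _) fun i _ => ?_
  rw [abs_pow]
  refine pow_le_pow_left₀ (abs_nonneg _) ?_ _
  exact Pool.Agent.Y724.Vj.le_hh x i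

theorem localInf_nonneg {n : ℕ} (F : MvPolynomial (Fin (n + 1)) ℤ) (k : ℕ)
    (hF : F.IsHomogeneous k) (x : Fin (n + 1) → ℤ) (hx : IsPrimitive x) (h0 : eval x F ≠ 0) :
    0 ≤ localInf F k x := by
  have hH : (0 : ℝ) < (height x : ℝ) := by
    have := Pool.Agent.Y724.Vj.hh_pos x hx
    exact_mod_cast this
  have h1 : (0 : ℝ) < |((eval x F : ℤ) : ℝ)| := abs_pos.2 (by exact_mod_cast h0)
  have h2 := abs_eval_le F k hF x
  have h3 : 0 < norm1 F := by
    by_contra h
    push Not at h
    have h4 : norm1 F * (height x : ℝ) ^ k ≤ 0 := mul_nonpos_of_nonpos_of_nonneg h (by positivity)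
    linarith
  have h4 := Real.log_le_log h1 h2
  rw [Real.log_mul h3.ne' (pow_ne_zero _ hH.ne'), Real.log_pow] at h4
  unfold localInf
  linarith

theorem localP_nonneg {n : ℕ} (p : ℕ) (F : MvPolynomial (Fin (n + 1)) ℤ)
    (x : Fin (n + 1) → ℤ) : 0 ≤ localP p F x :=
  mul_nonneg (Nat.cast_nonneg _) (Real.log_natCast_nonneg _)

theorem transversal_of {n q : ℕ} {d : Fin q → ℕ} {h : MvPolynomial (Index n d) ℤ}
    (hh : ∀ (L : Type) [Field L] (F : Fin q → MvPolynomial (Fin (n + 1)) L),
      (∀ i, (F i).IsHomogeneous (d i)) → Pool.Agent.Q51.HG.sp d F h ≠ 0 →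
      ∀ x : Fin (n + 1) → L, x ≠ 0 →
      LinearIndependent L (fun i : {i // eval x (F i) = 0} => fun k =>
        eval x (pderiv k (F i.1))))
    (F : Fin q → MvPolynomial (Fin (n + 1)) ℤ)
    (hF : ∀ i, (F i).IsHomogeneous (d i)) (hv : valueAt h F ≠ 0) : Transversal F := by
  intro Ω _ _ x hx
  have h1 := hh Ω (fun i => map (Int.castRingHom Ω) (F i)) (fun i => (hF i).map _) (by
    rw [Pool.Agent.Q51.HG.sp_map]
    change ((valueAt h F : ℤ) : Ω) ≠ 0
    exact_mod_cast hv) x hx
  have h2 : ∀ i k, eval x (pderiv k (map (Int.castRingHom Ω) (F i))) =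
      aeval x (pderiv k (F i)) := by
    intro i k
    rw [pderiv_map, eval_map]
    rfl
  have h3 : ∀ i, eval x (map (Int.castRingHom Ω) (F i)) = aeval x (F i) := by
    intro i
    rw [eval_map]
    rfl
  simp only [h2] at h1
  refine (h1.comp (fun i : {i // aeval x (F i) = 0} => ⟨i.1, by rw [h3]; exact i.2⟩) ?_)
  intro i i' hii
  simpa [Subtype.ext_iff] using hii

/-- **Main theorem.** Vojta's inequality with multiplier ideal correction, with the term
`(dim V - 1 + ε) h(x)` and without exceptional set, for all monomial ideals in the components of the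
boundary of 100 percent of the pairs, at all primitive integer points which are short sums of
`S`-units. -/
theorem result (n : ℕ) {q : ℕ} (d : Fin q → ℕ) (C : Finset (Fin q))
    (hC : ∑ c ∈ C, (d c + 1) ≤ 2 * n) (r : ℕ) :
    ∃ h : MvPolynomial (Index n d) ℤ, h ≠ 0 ∧
      ∀ F : Fin q → MvPolynomial (Fin (n + 1)) ℤ,
        (∀ i, (F i).IsHomogeneous (d i)) → valueAt h F ≠ 0 →
        Transversal F ∧
        ∀ (S : Finset ℕ), (∀ p ∈ S, p.Prime) → ∀ B ε : ℝ, 0 < ε → ∃ δ C0 : ℝ, 0 < δ ∧
          ∀ x : Fin (n + 1) → ℤ, IsPrimitive x → (∀ c ∈ C, eval x (F c) = 0) →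
            (∀ b, b ∉ C → eval x (F b) ≠ 0) → IsShortSum S r B δ x →
            ∀ E : Finset ({b // b ∉ C} → ℕ), E.Nonempty →
              canonicalHeight n d C x + gap C E S d F x ≤
                ((n : ℝ) - C.card - 1 + ε) * Real.log (height x) + C0 := by
  classical
  obtain ⟨h1, h10, h1s⟩ := Pool.Agent.Q51.HG.gen_snc n d
  obtain ⟨h2, h20, h2s⟩ := Pool.Agent.Q51.VX.pairs d C hC r
  refine ⟨h1 * h2, mul_ne_zero h10 h20, fun F hF hv => ?_⟩
  have hv' : valueAt h1 F ≠ 0 ∧ valueAt h2 F ≠ 0 := by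
    unfold valueAt at hv ⊢
    rw [map_mul] at hv
    exact ⟨left_ne_zero_of_mul hv, right_ne_zero_of_mul hv⟩
  refine ⟨transversal_of h1s F hF hv'.1, ?_⟩
  intro S hS B ε hε
  set b : Fin S.card → ℕ := fun v => (S.equivFin.symm v : ℕ) with hb
  have hbS : ∀ v, b v ∈ S := fun v => (S.equivFin.symm v).2
  have hbp : ∀ v, (b v).Prime := fun v => hS _ (hbS v)
  have hbi : Function.Injective b := by
    intro v v' h
    exact S.equivFin.symm.injective (Subtype.ext h)
  have hsum : ∀ f : ℕ → ℝ, ∑ v, f (b v) = ∑ p ∈ S, f p := by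
    intro f
    rw [← Finset.sum_coe_sort S f, ← Equiv.sum_comp S.equivFin.symm]
  have hunit : ∀ u : ℚ, IsSUnit S u → Pool.Agent.TH551.SU.IsSU b u := by
    rintro u ⟨σ, e, hσ, rfl⟩
    refine ⟨σ, fun v => e (b v), hσ, ?_⟩
    congr 1
    rw [← Finset.prod_coe_sort S (fun p => (p : ℚ) ^ e p), ← Equiv.prod_comp S.equivFin.symm]
  have hval : ∀ (i : Fin q) (x : Fin (n + 1) → ℤ),
      eval (fun y => (x y : ℚ)) (map (Int.castRingHom ℚ) (F i)) = ((eval x (F i) : ℤ) : ℚ) := by
    intro i x
    rw [eval_map]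
    exact Pool.Agent.Y724.Vj.evi_cast x (F i)
  obtain ⟨δ, C0, hδ, hmain⟩ := h2s (fun i => map (Int.castRingHom ℚ) (F i))
    (fun i => (hF i).map _) (by
      rw [Pool.Agent.Q51.HG.sp_map]
      change ((valueAt h2 F : ℤ) : ℚ) ≠ 0
      exact_mod_cast hv'.2) S.card b hbp hbi (max B 1) ε
    (le_max_right _ _) hε
  refine ⟨δ, C0 + ∑ b ∈ Finset.univ \ C, Real.log (norm1 (F b)), hδ,
    fun x hx hV hD hshort E hE => ?_⟩
  have hsh : Pool.Agent.Q51.VX.Short1 b r (max B 1) δ x := by
    obtain ⟨u, c, e1, e2, e3⟩ := hshort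
    refine ⟨u, c, fun j => hunit _ (e1 j), fun j y => ?_, e3⟩
    exact (e2 j y).trans (mul_le_mul_of_nonneg_right (le_max_left _ _)
      (Real.rpow_nonneg (Nat.cast_nonneg _) _))
  have key := hmain x hx (fun i hi => by rw [hval, hV i hi, Int.cast_zero])
    (fun i hi => by rw [hval]; exact_mod_cast hD i hi) hsh
  -- the local heights
  have hloc : ∀ i ∈ Finset.univ \ C, localInf (F i) (d i) x + ∑ p ∈ S, localP p (F i) x =
      Real.log (norm1 (F i)) + ((d i : ℝ) * Real.log (Pool.Agent.Y724.Vj.hh x) -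
        ∑ v, Real.log (Pool.Agent.Y724.Vj.wv b hbp v
          (eval (fun y => (x y : ℚ)) (map (Int.castRingHom ℚ) (F i))))) := by
    intro i hi
    have h0 : eval x (F i) ≠ 0 := hD i (Finset.mem_sdiff.1 hi).2
    rw [Fintype.sum_option, hval, Pool.Agent.Y724.Vj.wv_none]
    have h3 : ∀ v, Real.log (Pool.Agent.Y724.Vj.wv b hbp (some v) ((eval x (F i) : ℤ) : ℚ)) =
        -localP (b v) (F i) x := fun v => by
      rw [Pool.Agent.Y724.Vj.wv_some_int b hbp v _ h0, Real.log_inv, Real.log_pow]
      rfl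
    rw [Finset.sum_congr rfl fun v _ => h3 v, Finset.sum_neg_distrib,
      hsum fun p => localP p (F i) x]
    unfold localInf
    change Real.log (norm1 (F i)) + d i * Real.log (height x : ℝ) -
      Real.log |((eval x (F i) : ℤ) : ℝ)| + _ = Real.log (norm1 (F i)) +
        (d i * Real.log (height x : ℝ) - (Real.log |(((eval x (F i) : ℤ) : ℚ) : ℝ)| + _))
    rw [Rat.cast_intCast]
    ring
  have hsub : ∀ f : Fin q → ℝ, ∑ b : {b // b ∉ C}, f b = ∑ b ∈ Finset.univ \ C, f b := by
    intro f
    rw [← Finset.sum_subtype (Finset.univ \ C) (by simp) f]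
  have hgap : gap C E S d F x ≤ ∑ i ∈ Finset.univ \ C,
      (localInf (F i) (d i) x + ∑ p ∈ S, localP p (F i) x) := by
    unfold gap
    rw [Finset.sum_add_distrib, Finset.sum_comm, ← hsub fun i => localInf (F i) (d i) x]
    refine add_le_add (gap_le E hE _ fun j => localInf_nonneg _ _ (hF _) x hx (hD _ j.2))
      (Finset.sum_le_sum fun p _ => ?_)
    rw [← hsub fun i => localP p (F i) x]
    exact gap_le E hE _ fun j => localP_nonneg p _ x
  rw [Finset.sum_congr rfl hloc, Finset.sum_add_distrib] at hgap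
  have h3 : (2 * (n : ℝ) - ∑ c ∈ C, ((d c : ℝ) + 1) + ε) * Real.log (height x) =
      ((n : ℝ) - C.card - 1 + ε) * Real.log (height x) - canonicalHeight n d C x := by
    unfold canonicalHeight
    rw [Finset.sum_add_distrib, Finset.sum_const, nsmul_eq_mul, mul_one]
    ring
  have h4 : (2 * (n : ℝ) - ∑ c ∈ C, ((d c : ℝ) + 1) + ε) *
      Real.log (Pool.Agent.Y724.Vj.hh x) = (2 * (n : ℝ) - ∑ c ∈ C, ((d c : ℝ) + 1) + ε) *
      Real.log (height x) := rfl
  rw [h4, h3] at key
  linarith

end Pool.Agent.Results.MP_8865d3_nt.AllMonomialIdeals
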