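import Pool.Agent.Q183.VC.Comp
import Pool.Agent.Q103.SD.NFHeight
import Pool.Agent.Results.MP_71c16a_nt.ProductsAlongRecurrences

/-!
# Vojta's conjecture with multiplier ideals for all algebraic points of products of curves above
linear recurrences

For `i ∈ Λ`, a finite set, let `X_i` be a smooth projective curve over a number field and
`f_i : X_i → ℙ¹` a finite map of degree `N_i` over `ℚ` which is unramified outside the fibres over the
rational points `a_{i 1}, …, a_{i q_i}`, `≠ ∞`. Such a map exists by Belyi's theorem, and we may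
suppose that finitely many given points are in these fibres. Let `A_i` be the ring of functions on
`X_i` with poles only over `∞`: a Dedekind domain, finite over `ℚ[f_i]`. The reduced fibres over the
`a_{i k}` are sums of components `E_{i l}`, for instance the closed points over `ℚ`: the component
`E_{i l}`, over the point `a_{i k}` with `k = b_i(l)`, is given by generators
`z_{i l 0} = f_i - a_{i k}, z_{i l 1}, …` of its ideal. The points `P_i` of `X_i` (not over `∞`) over a
number field `L` are the homomorphisms `φ_i : A_i → L`, and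
`λ_{i l}(P, v) = max(0, - log max_k |z_{i l k}(P)|_v)` is a local height of `E_{i l}`. Moreover
`(deg K_{X_i}) / N_i = q_i - 2 - (∑_k dim (A_i / rad (f_i - a_{i k}))) / N_i`.

Let `X` be the product of the `X_i`. The components `pr_i^* E_{i l}` form a divisor `D` with normal
crossings. A nonempty finite set `M` of vectors `e = (e_{i l})` of natural numbers defines the ideal
sheaf `I` on `X`, monomial with respect to `D`, which is generated by the ideals of the divisors
`∑ e_{i l} pr_i^* E_{i l}`, `e ∈ M`, with the local height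
`λ_I(P, v) = min_{e ∈ M} ∑ e_{i l} λ_{i l}(P, v)`. If `X` is a curve, then every ideal sheaf with support
in the fibres is of this kind, with `M` a single vector. By Howald's formula `I⁻ = lim I_{1 - ε}` is
given in the same way by the set `M⁻` of the `m` such that `m + (1, …, 1)` is in the Newton polyhedron
`conv(M) + ℝ_{≥ 0}^n`.

Let `K` be a number field and let `x_i(s) = X_{i 0}(s) / X_{i 1}(s)`, where the `X_{i k}` are sequences of
integers of `K` with linear recurrences with constant coefficients, such that the values at `x_i(s)` of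
the equations of the `a_{i k}` are products `κ μ ^ s ∏ g_{i j}(s) ^ e_j` of powers of such sequences,
with arbitrary exponents. We show, for all points `P = (P_i)` of `X` of all degrees above `(x_i(s))`,
over all number fields `L` which contain `K`, for all finite sets `S` of primes and all `I`,
`∑_{v ∈ S} λ_I(P, v) - ∑_{v ∈ S} λ_{I⁻}(P, v) + ∑_i (deg K_{X_i} / N_i) h(x_i(s)) ≤
  d(L) - d(K) + ε ∑_i h(x_i(s)) + (log N(𝔟)) / [K : ℚ] + ∑_{p ∈ S} log p + C`,
where the product of all different `g_{i j}(s)` is the product of a squarefree ideal and of an ideal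
`𝔟` prime to it: for almost all `s` with a constant `C`, with `C + δ s` for all `s`, and with a constant
`C` for all `s` with `∑_i h(x_i(s)) ≥ c s`. There is no exceptional set, and `C` does not depend on `I`.
-/

set_option autoImplicit false

namespace Pool.Agent.Results.MP_8865d3_nt.IdealsAboveRecurrences

open IsDedekindDomain NumberField
open scoped Polynomial
open Pool.Agent.Results.MP_71c16a_nt.ProductsAlongRecurrences (val uneq height coord minusLog logDisc)

/-- `q - 2 - (∑_k dim (A / rad (f - a_k))) / N`, where `N` is the rank of `A` over `ℚ[f]`: the number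
`(deg K_X) / N` of one curve. -/
noncomputable def canonical (A : Type) [CommRing A] [Algebra ℚ A] [Algebra ℚ[X] A] {q : ℕ}
    (a : Fin q → ℚ) : ℝ :=
  q - 2 - (∑ k, (Module.finrank ℚ
    (A ⧸ (Ideal.span {coord A - algebraMap ℚ[X] A (.C (a k))}).radical) : ℝ)) /
      Module.finrank ℚ[X] A

/-- The local heights `λ_{i l}(P, v) = max(0, - log max_k |z_{i l k}(P)|_v)` of the components
`c = (i, l)` at the point `P = (φ_i)`, where `v` is an absolute value of `L`. -/
noncomputable def component {Λ : Type} {A : Λ → Type} [∀ i, CommRing (A i)] {r : Λ → ℕ}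
    {u : ∀ i, Fin (r i) → ℕ} (z : ∀ i l, Fin (u i l + 1) → A i) {L : Type} [Field L]
    (φ : ∀ i, A i →+* L) (v : L → ℝ) (c : Σ i, Fin (r i)) : ℝ :=
  minusLog fun k => v (φ c.1 (z c.1 c.2 k))

/-- `inf_{m ∈ M} ∑_c m_c λ_c`: the local height of the monomial ideal given by `M`, if the local heights
of the components are the `λ_c` -/
noncomputable def localHeight {Γ : Type} [Fintype Γ] (M : Set (Γ → ℕ)) (lam : Γ → ℝ) : ℝ :=
  ⨅ m : M, ∑ c, (m.1 c : ℝ) * lam c

/-- Howald's formula for `I⁻`: the vectors `m` such that `m + (1, …, 1)` is in the Newton polyhedron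
`conv(M) + ℝ_{≥ 0}^Γ` of `M`. -/
def minus {Γ : Type} (M : Finset (Γ → ℕ)) : Set (Γ → ℕ) :=
  {m | ∃ ω : (Γ → ℕ) → ℝ, (∀ e ∈ M, 0 ≤ ω e) ∧ ∑ e ∈ M, ω e = 1 ∧
    ∀ c, ∑ e ∈ M, ω e * e c ≤ m c + 1}

open Classical in
/-- The sum of the local heights of the monomial ideal given by `M` over the infinite places `w` of `L`
(with `mult w = [L_w : ℝ]`) and the primes of `L` above the primes of `S`, divided by `[L : ℚ]`. The
absolute values are normalised so that the product formula holds. -/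
noncomputable def localHeights {Λ : Type} [Fintype Λ] {A : Λ → Type} [∀ i, CommRing (A i)]
    {r : Λ → ℕ} {u : ∀ i, Fin (r i) → ℕ} (z : ∀ i l, Fin (u i l + 1) → A i)
    (M : Set ((Σ i, Fin (r i)) → ℕ)) (S : Finset ℕ) (L : Type) [Field L] [NumberField L]
    (φ : ∀ i, A i →+* L) : ℝ :=
  ((∑ w : InfinitePlace L, (w.mult : ℝ) * localHeight M (component z φ fun c => w c)) +
    ∑ᶠ v : HeightOneSpectrum (𝓞 L), if ∃ p ∈ S, (p : 𝓞 L) ∈ v.asIdeal then
      localHeight M (component z φ fun c => FinitePlace.mk v c) else 0) / Module.finrank ℚ L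

/-- The inequality of Vojta above `(x_i) ∈ K ^ Λ`, where `B` is the product of the different bases:
for all points `P = (φ_i)` of the product of the curves above `(x_i)`, over all number fields `L` which
contain `K`, all finite sets `S` of primes and all monomial ideals `I`, if `(B) = 𝔞 𝔟` with a
squarefree ideal `𝔞` prime to `𝔟`, then `λ_S(I, P) - λ_S(I⁻, P) + ∑_i (deg K_{X_i} / N_i) h(x_i) ≤
  d(L) - d(K) + ε ∑_i h(x_i) + (log N 𝔟) / [K : ℚ] + ∑_{p ∈ S} log p + C`. -/
def Vojta {K : Type} [Field K] [NumberField K] {Λ : Type} [Fintype Λ] (A : Λ → Type)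
    [∀ i, CommRing (A i)] [∀ i, Algebra ℚ (A i)] [∀ i, Algebra ℚ[X] (A i)] {q r : Λ → ℕ}
    (a : ∀ i, Fin (q i) → ℚ) {u : ∀ i, Fin (r i) → ℕ} (z : ∀ i l, Fin (u i l + 1) → A i) (B : 𝓞 K)
    (x : Λ → K) (ε C : ℝ) : Prop :=
  ∀ (L : Type) [Field L] [NumberField L] [Algebra K L] (φ : ∀ i, A i →+* L) (S : Finset ℕ),
    (∀ i, φ i (coord (A i)) = algebraMap K L (x i)) → (∀ p ∈ S, p.Prime) →
    ∀ M : Finset ((Σ i, Fin (r i)) → ℕ), M.Nonempty →
    ∀ 𝔞 𝔟 : Ideal (𝓞 K), Ideal.span {B} = 𝔞 * 𝔟 → Squarefree 𝔞 → IsCoprime 𝔞 𝔟 →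
      localHeights z M S L φ - localHeights z (minus M) S L φ +
        ∑ i, canonical (A i) (a i) * height (x i) ≤
        logDisc L - logDisc K + ε * ∑ i, height (x i) +
          Real.log (Ideal.absNorm 𝔟) / Module.finrank ℚ K + ∑ p ∈ S, Real.log p + C

/-- the comparison of the local heights of `I` and `I⁻` -/
private theorem gap {Γ : Type} [Fintype Γ] (M : Finset (Γ → ℕ)) (hM : M.Nonempty) (lam : Γ → ℝ)
    (hlam : ∀ c, 0 ≤ lam c) :
    localHeight (M : Set (Γ → ℕ)) lam ≤ localHeight (minus M) lam + ∑ c, lam c := by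
  classical
  have hne : Nonempty (minus M) := by
    obtain ⟨e, he⟩ := hM
    refine ⟨e, fun f => if f = e then 1 else 0, fun f _ => by positivity, ?_, fun c => ?_⟩
    · rw [Finset.sum_ite_eq' M e]
      exact if_pos he
    · simp only [ite_mul, one_mul, zero_mul]
      rw [Finset.sum_ite_eq' M e, if_pos he]
      linarith
  rw [← sub_le_iff_le_add]
  unfold localHeight
  apply le_ciInf
  rintro ⟨m, ω, h1, h2, h3⟩
  rw [sub_le_iff_le_add]
  have hbdd : BddBelow (Set.range fun m : (M : Set (Γ → ℕ)) => ∑ c, (m.1 c : ℝ) * lam c) := by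
    refine ⟨0, ?_⟩
    rintro _ ⟨m, rfl⟩
    exact Finset.sum_nonneg fun c _ => mul_nonneg (Nat.cast_nonneg _) (hlam c)
  have h4 : ∀ e ∈ M, (⨅ m : (M : Set (Γ → ℕ)), ∑ c, (m.1 c : ℝ) * lam c) ≤
      ∑ c, (e c : ℝ) * lam c := fun e he => ciInf_le hbdd ⟨e, he⟩
  set i₀ := ⨅ m : (M : Set (Γ → ℕ)), ∑ c, (m.1 c : ℝ) * lam c with hi₀
  calc i₀ = ∑ e ∈ M, ω e * i₀ := by rw [← Finset.sum_mul, h2, one_mul]
    _ ≤ ∑ e ∈ M, ω e * ∑ c, (e c : ℝ) * lam c :=
        Finset.sum_le_sum fun e he => mul_le_mul_of_nonneg_left (h4 e he) (h1 e he)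
    _ = ∑ c, (∑ e ∈ M, ω e * e c) * lam c := by
        simp only [Finset.mul_sum, Finset.sum_mul]
        rw [Finset.sum_comm]
        exact Finset.sum_congr rfl fun c _ => Finset.sum_congr rfl fun e _ => by ring
    _ ≤ ∑ c, ((m c : ℝ) + 1) * lam c :=
        Finset.sum_le_sum fun c _ => mul_le_mul_of_nonneg_right (h3 c) (hlam c)
    _ = ∑ c, (m c : ℝ) * lam c + ∑ c, lam c := by
        rw [← Finset.sum_add_distrib]
        exact Finset.sum_congr rfl fun c _ => by ring

private theorem exists_gens {A : Type} [CommRing A] [IsNoetherianRing A] (I : Ideal A) {x : A}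
    (hx : x ∈ I) : ∃ (n : ℕ) (y : Fin (n + 1) → A), y 0 = x ∧ Ideal.span (Set.range y) = I := by
  obtain ⟨n, s, hs⟩ := Submodule.fg_iff_exists_fin_generating_family.1 (IsNoetherian.noetherian I)
  refine ⟨n, Fin.cons x s, Fin.cons_zero _ _, ?_⟩
  rw [Fin.range_cons, Ideal.span_insert]
  have hs' : Ideal.span (Set.range s) = I := hs
  rw [hs']
  exact sup_eq_right.2 ((Ideal.span_singleton_le_iff_mem _).2 hx)

private theorem above_finite {L : Type} [Field L] [NumberField L] (S : Finset ℕ)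
    (hS : ∀ p ∈ S, p.Prime) :
    {v : HeightOneSpectrum (𝓞 L) | ∃ p ∈ S, (p : 𝓞 L) ∈ v.asIdeal}.Finite := by
  have h0 : ((∏ p ∈ S, p : ℕ) : 𝓞 L) ≠ 0 := by
    exact_mod_cast Finset.prod_ne_zero_iff.mpr fun p hp => (hS p hp).ne_zero
  refine (Pool.Agent.Q103.SD.NF.primes_finite h0).subset ?_
  rintro v ⟨p, hp, hpv⟩
  show ((∏ p ∈ S, p : ℕ) : 𝓞 L) ∈ v.asIdeal
  obtain ⟨c, hc⟩ := Finset.dvd_prod_of_mem (fun p => p) hp
  rw [hc]
  push_cast
  exact Ideal.mul_mem_right _ _ hpv

private theorem finsum_if {L : Type} [Field L] [NumberField L] (S : Finset ℕ)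
    (hS : ∀ p ∈ S, p.Prime) (F : HeightOneSpectrum (𝓞 L) → ℝ)
    (d : ∀ v : HeightOneSpectrum (𝓞 L), Decidable (∃ p ∈ S, (p : 𝓞 L) ∈ v.asIdeal)) :
    (∑ᶠ v : HeightOneSpectrum (𝓞 L), @ite ℝ (∃ p ∈ S, (p : 𝓞 L) ∈ v.asIdeal) (d v) (F v) 0) =
      ∑ v ∈ (above_finite (L := L) S hS).toFinset, F v := by
  rw [finsum_eq_sum_of_support_subset (s := (above_finite (L := L) S hS).toFinset)]
  · refine Finset.sum_congr rfl fun v hv => ?_
    rw [Set.Finite.mem_toFinset] at hv
    exact if_pos hv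
  · intro v hv
    rw [Function.mem_support] at hv
    rw [Finset.mem_coe, Set.Finite.mem_toFinset]
    by_contra h
    exact hv (if_neg h)

private theorem finrank_congr {A : Type} [CommRing A] [Algebra ℚ A] {I J : Ideal A} (h : I = J) :
    (Module.finrank ℚ (A ⧸ I) : ℝ) = Module.finrank ℚ (A ⧸ J) := by
  subst h
  rfl

private theorem minusLog_nonneg {s : ℕ} (c : Fin (s + 1) → ℝ) : 0 ≤ minusLog c := le_max_left _ _

/-- the local heights of `I` are at most those of `I⁻` and of the reduced fibres -/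
private theorem heights_le {Λ : Type} [Fintype Λ] {A : Λ → Type} [∀ i, CommRing (A i)]
    [∀ i, Algebra ℚ[X] (A i)] [∀ i, Module.Finite ℚ[X] (A i)] {q r : Λ → ℕ}
    {u : ∀ i, Fin (r i) → ℕ} (z : ∀ i l, Fin (u i l + 1) → A i)
    (hz : ∀ i l, ∃ h : ℚ[X], 0 < h.natDegree ∧ z i l 0 = algebraMap ℚ[X] (A i) h)
    {t : ∀ i, Fin (q i) → ℕ} (y : ∀ i k, Fin (t i k + 1) → A i)
    (hprod : ∀ i (k : ∀ j, Fin (t i j + 1)),
      ∏ j, y i j (k j) ∈ ∏ l, Ideal.span (Set.range (z i l))) :
    ∃ C : ℝ, 0 ≤ C ∧ ∀ (L : Type) [Field L] [NumberField L] (φ : ∀ i, A i →+* L) (S : Finset ℕ),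
      (∀ p ∈ S, p.Prime) → (∀ i l, ∃ k, φ i (z i l k) ≠ 0) → (∀ i j, ∃ k, φ i (y i j k) ≠ 0) →
      ∀ M : Finset ((Σ i, Fin (r i)) → ℕ), M.Nonempty →
      localHeights z M S L φ ≤ localHeights z (minus M) S L φ +
        ∑ i, Pool.Agent.Results.MP_71c16a_nt.ProductsAlongRecurrences.proximity S (t i) (y i) L
          (φ i) + C := by
  classical
  choose D B hD hB hmain using fun i => Pool.Agent.Q183.VC.compareP (z i) (y i) (hz i) (hprod i)
  have hD1 : ∀ i, (1 : ℝ) ≤ D i := fun i => by exact_mod_cast Nat.one_le_iff_ne_zero.mpr (hD i)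
  refine ⟨∑ i, (B i + Real.log (D i)),
    Finset.sum_nonneg fun i _ => add_nonneg (hB i) (Real.log_nonneg (hD1 i)), ?_⟩
  intro L _ _ φ S hS h1 h2 M hM
  have hd : (0 : ℝ) < Module.finrank ℚ L := by exact_mod_cast Module.finrank_pos
  have hf := fun i => (hmain i L (φ i) (h1 i) (h2 i)).1
  have hi := fun i => (hmain i L (φ i) (h1 i) (h2 i)).2
  -- the sum of the local heights of the components
  have key : ∀ (v : L → ℝ) (E : Λ → ℝ),
      (∀ i, ∑ l, minusLog (fun k => v (φ i (z i l k))) ≤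
        ∑ j, minusLog (fun k => v (φ i (y i j k))) + E i) →
      localHeight (M : Set ((Σ i, Fin (r i)) → ℕ)) (component z φ v) ≤
        localHeight (minus M) (component z φ v) +
          ∑ i, ∑ j, minusLog (fun k => v (φ i (y i j k))) + ∑ i, E i := by
    intro v E hE
    have h3 := gap M hM (component z φ v) fun c => minusLog_nonneg _
    have h4 : ∑ c, component z φ v c ≤
        ∑ i, ∑ j, minusLog (fun k => v (φ i (y i j k))) + ∑ i, E i := by
      rw [Fintype.sum_sigma, ← Finset.sum_add_distrib]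
      exact Finset.sum_le_sum fun i _ => hE i
    linarith
  have e1 : ∑ w : InfinitePlace L, (w.mult : ℝ) *
        localHeight (M : Set ((Σ i, Fin (r i)) → ℕ)) (component z φ fun c => w c) ≤
      ∑ w : InfinitePlace L, (w.mult : ℝ) * localHeight (minus M) (component z φ fun c => w c) +
      ∑ i, ∑ w : InfinitePlace L, (w.mult : ℝ) * ∑ j, minusLog (fun k => w (φ i (y i j k))) +
        Module.finrank ℚ L * ∑ i, B i := by
    have hm : (Module.finrank ℚ L : ℝ) * ∑ i, B i =
        ∑ w : InfinitePlace L, (w.mult : ℝ) * ∑ i, B i := by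
      rw [← Finset.sum_mul, ← InfinitePlace.sum_mult_eq]
      push_cast
      rfl
    rw [hm, Finset.sum_comm, ← Finset.sum_add_distrib, ← Finset.sum_add_distrib]
    apply Finset.sum_le_sum
    intro w _
    have h3 := mul_le_mul_of_nonneg_left (key (fun c => w c) B fun i => hi i w)
      (Nat.cast_nonneg (α := ℝ) w.mult)
    rw [mul_add, mul_add] at h3
    rw [← Finset.mul_sum]
    exact h3
  have e2 : (∑ᶠ v : HeightOneSpectrum (𝓞 L), if ∃ p ∈ S, (p : 𝓞 L) ∈ v.asIdeal then
        localHeight (M : Set ((Σ i, Fin (r i)) → ℕ)) (component z φ fun c => FinitePlace.mk v c)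
          else 0) ≤
      (∑ᶠ v : HeightOneSpectrum (𝓞 L), if ∃ p ∈ S, (p : 𝓞 L) ∈ v.asIdeal then
        localHeight (minus M) (component z φ fun c => FinitePlace.mk v c) else 0) +
      ∑ i, (∑ᶠ v : HeightOneSpectrum (𝓞 L), if ∃ p ∈ S, (p : 𝓞 L) ∈ v.asIdeal then
        ∑ j, minusLog (fun k => FinitePlace.mk v (φ i (y i j k))) else 0) +
      Module.finrank ℚ L * ∑ i, Real.log (D i) := by
    rw [finsum_if S hS, finsum_if S hS,
      Finset.sum_congr rfl fun i _ => finsum_if (L := L) S hS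
        (fun v => ∑ j, minusLog (fun k => FinitePlace.mk v (φ i (y i j k)))) _]
    have h3 : ∑ i, ∑ v ∈ (above_finite (L := L) S hS).toFinset,
        -Real.log (Pool.Agent.W125.CV.fv v (D i : L)) ≤
        Module.finrank ℚ L * ∑ i, Real.log (D i) := by
      rw [Finset.mul_sum]
      exact Finset.sum_le_sum fun i _ => Pool.Agent.Q128.SDF.sum_fv_nat (L := L) (D i) (hD i) _
    refine le_trans ?_ (add_le_add_right h3 _)
    rw [Finset.sum_comm, Finset.sum_comm (s := Finset.univ), ← Finset.sum_add_distrib,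
      ← Finset.sum_add_distrib]
    apply Finset.sum_le_sum
    intro v _
    exact key (fun c => FinitePlace.mk v c) (fun i => -Real.log (Pool.Agent.W125.CV.fv v (D i : L)))
      fun i => hf i v
  have e3 : localHeights z M S L φ * Module.finrank ℚ L ≤
      (localHeights z (minus M) S L φ + ∑ i,
        Pool.Agent.Results.MP_71c16a_nt.ProductsAlongRecurrences.proximity S (t i) (y i) L (φ i) +
          ∑ i, (B i + Real.log (D i))) * Module.finrank ℚ L := by
    unfold localHeights Pool.Agent.Results.MP_71c16a_nt.ProductsAlongRecurrences.proximity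
    rw [div_mul_cancel₀ _ hd.ne', add_mul, add_mul, div_mul_cancel₀ _ hd.ne', Finset.sum_mul,
      Finset.sum_congr rfl fun i _ => div_mul_cancel₀ _ hd.ne']
    have e4 := add_le_add e1 e2
    refine e4.trans (le_of_eq ?_)
    rw [Finset.sum_add_distrib, Finset.sum_add_distrib]
    ring
  exact le_of_mul_le_mul_right e3 hd

/-- **Main theorem.** For `i ∈ Λ` let `X_{i 0}`, `X_{i 1}` and the bases `g_{i j}` have linear
recurrences, and let the values `den(a_{i k}) X_{i 0}(s) - num(a_{i k}) X_{i 1}(s)` be the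
`κ_{i k} μ_{i k} ^ s ∏ g_{i j}(s) ^ e_{i k j}`; let `x_i(s) = X_{i 0}(s) / X_{i 1}(s)`.
(1) For all `η, ε > 0` there is a constant `C` such that the inequality of Vojta with `ε` and `C`
holds for all points above `(x_i(s))` and all monomial ideals, for all `s` with `X_{i 1}(s) ≠ 0` and
`x_i(s) ≠ a_{i k}` except for at most `η N` among any `N` consecutive integers, for `N` large and from
some point on.
(2) For all `δ, ε > 0` there is a constant `C` such that it holds with `ε` and `C + δ s` for all `s`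
with `X_{i 1}(s) ≠ 0` and `x_i(s) ≠ a_{i k}`.
(3) For all `c, ε > 0` there is a constant `C` such that it holds with `ε` and `C` for all `s` with
`X_{i 1}(s) ≠ 0`, `x_i(s) ≠ a_{i k}` and `∑_i h(x_i(s)) ≥ c s`. -/
theorem result {K : Type} [Field K] [NumberField K] {Λ : Type} [Fintype Λ] {J : Λ → Type}
    [∀ i, Fintype (J i)] (g : ∀ i, J i → ℕ → 𝓞 K)
    (hg : ∀ i j, ∃ E : LinearRecurrence (𝓞 K), E.IsSolution (g i j))
    (X : Λ → Fin 2 → ℕ → 𝓞 K) (hX : ∀ i k, ∃ E : LinearRecurrence (𝓞 K), E.IsSolution (X i k))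
    {q r : Λ → ℕ} (hq : ∀ i, 0 < q i) (a : ∀ i, Fin (q i) → ℚ)
    (ha : ∀ i, Function.Injective (a i))
    (κ μ : ∀ i, Fin (q i) → 𝓞 K) (hμ : ∀ i j, μ i j ≠ 0) (e : ∀ i, Fin (q i) → J i → ℕ)
    (hL : ∀ i j s, ((a i j).den : 𝓞 K) * X i 0 s - ((a i j).num : 𝓞 K) * X i 1 s =
      val (κ i) (μ i) (g i) (e i) j s)
    (A : Λ → Type) [∀ i, CommRing (A i)] [∀ i, IsDedekindDomain (A i)] [∀ i, Algebra ℚ (A i)]
    [∀ i, Algebra ℚ[X] (A i)] [∀ i, IsScalarTower ℚ ℚ[X] (A i)]
    [∀ i, Module.Finite ℚ[X] (A i)] [∀ i, FaithfulSMul ℚ[X] (A i)]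
    (b : ∀ i, Fin (r i) → Fin (q i)) {u : ∀ i, Fin (r i) → ℕ}
    (z : ∀ i l, Fin (u i l + 1) → A i)
    (hz : ∀ i l, z i l 0 = coord (A i) - algebraMap ℚ[X] (A i) (.C (a i (b i l))))
    (hfib : ∀ i, ∀ k : Fin (q i), ∏ l with b i l = k, Ideal.span (Set.range (z i l)) =
      (Ideal.span {coord (A i) - algebraMap ℚ[X] (A i) (.C (a i k))}).radical) :
    let x : ℕ → Λ → K := fun s i => (X i 0 s : K) / (X i 1 s : K)
    let Off : ℕ → Prop := fun s => (∀ i, X i 1 s ≠ 0) ∧ ∀ i k, x s i ≠ (a i k : K)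
    let V : ℝ → ℝ → ℕ → Prop := fun ε C s =>
      Vojta A a z (∏ i, ∏ j ∈ uneq (e i), g i j s) (x s) ε C
    (∀ η ε : ℝ, 0 < η → 0 < ε → ∃ (C : ℝ) (T n : ℕ), ∀ t N : ℕ, n ≤ t → T ≤ N →
      (({s | t ≤ s ∧ s < t + N ∧ Off s ∧ ¬ V ε C s}.ncard : ℕ) : ℝ) ≤ η * N) ∧
    (∀ δ ε : ℝ, 0 < δ → 0 < ε → ∃ C : ℝ, ∀ s : ℕ, Off s → V ε (C + δ * s) s) ∧
    ∀ c ε : ℝ, 0 < c → 0 < ε → ∃ C : ℝ, ∀ s : ℕ, Off s → c * s ≤ ∑ i, height (x s i) →
      V ε C s := by
  classical
  intro x Off V
  -- generators of the radicals of the fibres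
  have hmem : ∀ i k, coord (A i) - algebraMap ℚ[X] (A i) (.C (a i k)) ∈
      (Ideal.span {coord (A i) - algebraMap ℚ[X] (A i) (.C (a i k))}).radical := fun i k =>
    Ideal.le_radical (Ideal.mem_span_singleton_self _)
  choose t y hy0 hy using fun i k => exists_gens _ (hmem i k)
  have hyr : ∀ i j l, y i j l ∈
      (Ideal.span {coord (A i) - algebraMap ℚ[X] (A i) (.C (a i j))}).radical := by
    intro i j l
    rw [← hy i j]
    exact Ideal.subset_span ⟨l, rfl⟩
  have hpoly : ∀ i l, ∃ h : ℚ[X], 0 < h.natDegree ∧ z i l 0 = algebraMap ℚ[X] (A i) h := by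
    intro i l
    refine ⟨.X - .C (a i (b i l)), by rw [Polynomial.natDegree_X_sub_C]; exact one_pos, ?_⟩
    rw [hz i l, map_sub]
    rfl
  have hprod : ∀ i (k : ∀ j, Fin (t i j + 1)),
      ∏ j, y i j (k j) ∈ ∏ l, Ideal.span (Set.range (z i l)) := by
    intro i k
    have h1 : ∏ l, Ideal.span (Set.range (z i l)) =
        ∏ j, (Ideal.span {coord (A i) - algebraMap ℚ[X] (A i) (.C (a i j))}).radical := by
      rw [← Finset.prod_congr rfl fun j _ => hfib i j]
      exact (Finset.prod_fiberwise Finset.univ (b i) fun l => Ideal.span (Set.range (z i l))).symm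
    rw [h1]
    exact Ideal.prod_mem_prod fun j _ => hyr i j (k j)
  obtain ⟨C₁, hC₁, hheights⟩ := heights_le z hpoly y hprod
  have hcan : ∀ i, Pool.Agent.Results.MP_71c16a_nt.ProductsAlongRecurrences.canonical (t i) (y i) =
      canonical (A i) (a i) := by
    intro i
    unfold Pool.Agent.Results.MP_71c16a_nt.ProductsAlongRecurrences.canonical canonical
    rw [Finset.sum_congr rfl fun k _ => finrank_congr (hy i k)]
  have hstep : ∀ (ε C : ℝ) (s : ℕ), Off s →
      Pool.Agent.Results.MP_71c16a_nt.ProductsAlongRecurrences.Vojta A t y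
        (∏ i, ∏ j ∈ uneq (e i), g i j s) (x s) ε C → V ε (C + C₁) s := by
    intro ε C s hs hV L _ _ _ φ S hφ hS M hM 𝔞 𝔟 h1 h2 h3
    have hval : ∀ i k, φ i (coord (A i) - algebraMap ℚ[X] (A i) (.C (a i k))) ≠ 0 := by
      intro i k h4
      have h5 : φ i (algebraMap ℚ[X] (A i) (.C (a i k))) = (a i k : L) :=
        eq_ratCast ((φ i).comp ((algebraMap ℚ[X] (A i)).comp Polynomial.C)) (a i k)
      rw [map_sub, h5, hφ i, sub_eq_zero] at h4
      apply hs.2 i k
      apply FaithfulSMul.algebraMap_injective K L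
      rw [h4, map_ratCast]
    have h4 := hV L φ S hφ hS 𝔞 𝔟 h1 h2 h3
    have h5 := hheights L φ S hS (fun i l => ⟨0, by rw [hz i l]; exact hval i (b i l)⟩)
      (fun i k => ⟨0, by rw [hy0 i k]; exact hval i k⟩) M hM
    have h6 : ∑ i, Pool.Agent.Results.MP_71c16a_nt.ProductsAlongRecurrences.canonical (t i) (y i) *
        height (x s i) = ∑ i, canonical (A i) (a i) * height (x s i) :=
      Finset.sum_congr rfl fun i _ => by rw [hcan i]
    rw [h6] at h4
    linarith
  obtain ⟨p1, p2, p3⟩ := Pool.Agent.Results.MP_71c16a_nt.ProductsAlongRecurrences.result g hg X hX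
    hq a ha κ μ hμ e hL A t y hy0 hyr
  refine ⟨fun η ε hη hε => ?_, fun δ ε hδ hε => ?_, fun c ε hc hε => ?_⟩
  · obtain ⟨C, T, n, h⟩ := p1 η ε hη hε
    refine ⟨C + C₁, T, n, fun t N ht hN => ?_⟩
    refine le_trans ?_ (h t N ht hN)
    rw [Nat.cast_le]
    apply Set.ncard_le_ncard
    · rintro s ⟨h1, h2, h3, h4⟩
      exact ⟨h1, h2, h3, fun h5 => h4 (hstep ε C s h3 h5)⟩
    · exact (Set.finite_Ico t (t + N)).subset fun s hs => ⟨hs.1, hs.2.1⟩
  · obtain ⟨C, h⟩ := p2 δ ε hδ hε
    refine ⟨C + C₁, fun s hs => ?_⟩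
    have h1 := hstep ε _ s hs (h s hs)
    have h2 : C + δ * s + C₁ = C + C₁ + δ * s := by ring
    rwa [h2] at h1
  · obtain ⟨C, h⟩ := p3 c ε hc hε
    exact ⟨C + C₁, fun s hs hcs => hstep ε C s hs (h s hs hcs)⟩

end Pool.Agent.Results.MP_8865d3_nt.IdealsAboveRecurrences
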