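import Pool.Agent.Q138.PS.WO
import Pool.Agent.Q138.PS.WQ
import Pool.Agent.Q138.AJ.R8865d3a
import Pool.Agent.Q138.AJ.R8865d3b

/-!
# Vojta's conjecture with multiplier ideals above the points which are close to a given point

Let `K` be a number field, `n ≥ 1`, `Y` a metric space and `p : ℙⁿ(K) → Y` any map, for instance the coordinates of the points in
a completion of `K`. `H` is the height relative to `K`. Let `a_0, …, a_(q-1)` be linear forms in `n + 1` variables over `K`. The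
varieties `X_m` (`m ≥ 1`), which cover `ℙⁿ` by `y_i ^ m = a_i(x)`, the monomial ideals `I` on `X_m` with their multiplier ideals
`I⁻` and all the heights are as in the starting files `MonomialIdeals` (any `n + 1` of the `a_i` are linearly independent: smooth
complete intersections of Fermat type) and `KummerCovers` (arbitrary `a_i ≠ 0` which span the space of the linear forms:
desingularised Kummer covers of arbitrary hyperplane arrangements). `x` near `z` means `dist (p(x), z) ≤ b H(x) ^ (-τ)`.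

(1) Let `q ≥ n + 1`, `θ ≥ 0` and `τ > 0`. There is a set `Z ⊆ Y` of Hausdorff dimension at most `exponent n q θ / τ` such that
for every `z ∈ Y` outside `Z`, ALL `a_0, …, a_(q-1)` in general position over `K`, all `b` and all `c`: for all but finitely many
`x` near `z`, off the hyperplanes, ALL `m ≥ 1`, ALL points `P` of `X_m` above `x`, of any degree, ALL monomial ideals `I` and ALL
finite sets `S` of primes `(θ m - q) h(P) + ∑_{v ∈ S ∪ {∞}} (λ_I - λ_{I⁻})(P, v) ≤ d(P) + ∑_{p ∈ S} log p + c`. For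
`θ = q - n - 1 - ε` the first term is `h_K(P) - ε m h(P)`. For `θ < q` the exponent is less than `n + 1`, and for Dirichlet's
exponent `τ = 1 + 1 / n` the dimension is less than `n`.

(2) There is ONE set `Z ⊆ Y` of dimension ZERO such that for `z` outside `Z`, all `τ > 0` and `b` there is `N` such that the
same is true with `θ = 1 / (N + 1)` for ALL `q`, `a` in general position and `c`.

(3) Let `0 ≤ κ ≤ 1 / 2` and `τ > 0`. There is a set `Z ⊆ Y` of dimension at most `(n + 1 - κ) / τ` such that for `z` outside `Z`,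
ALL hyperplane arrangements `a` over `K` and all `b`, `c`: for all but finitely many `x` near `z`, off the hyperplanes, ALL
`m ≥ 1`, ALL points `P` of the Kummer cover `X_m` above `x`, ALL monomial ideals `I` and ALL finite sets `S` of primes
`h_K(P) + ∑_{v ∈ S ∪ {∞}} (λ_I - λ_{I⁻})(P, v) + (n + 1 - κ) h(x) ≤ d(P) + ∑_{p ∈ S} log p + c`.
-/

set_option autoImplicit false

namespace Pool.Agent.Results.MP_8865d3_nt.PointsNearGivenPoints

open NumberField IsDedekindDomain LinearAlgebra.Projectivization Pool.Agent.Q138.PS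

section
variable {K : Type} [Field K] [NumberField K] {n : ℕ}

/-- `x` is off the hyperplanes and the inequality of (1) fails for some `m`, `P`, `I`, `S` -/
def Fails {q : ℕ} (a : Fin q → Fin (n + 1) → K) (θ c : ℝ) (x : ℙ K (Fin (n + 1) → K)) : Prop :=
  (∀ i, Pool.Agent.Q138.AJ.R8865d3a.lin (a i) x.rep ≠ 0) ∧
    ∃ (m : ℕ) (L : Type) (_ : Field L) (_ : NumberField L) (_ : Algebra K L) (y : Fin q → L) (t : L)
      (E : Finset (Fin q → ℕ)) (S : Finset ℕ), 1 ≤ m ∧ t ≠ 0 ∧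
        (∀ i, y i ^ m = t * algebraMap K L (Pool.Agent.Q138.AJ.R8865d3a.lin (a i) x.rep)) ∧ E.Nonempty ∧
        (∀ p ∈ S, p.Prime) ∧
        Pool.Agent.Q138.AJ.R8865d3a.logDisc L + ∑ p ∈ S, Real.log p + c <
          (θ * m - q) * Pool.Agent.Q138.AJ.R8865d3a.height y + Pool.Agent.Q138.AJ.R8865d3a.proximity S y E

/-- `x` is off the hyperplanes and the inequality of (3) fails for some `m`, `P`, `I`, `S` -/
def FailsKummer {r : ℕ} (a : Fin r → Fin (n + 1) → K) (κ c : ℝ) (x : ℙ K (Fin (n + 1) → K)) : Prop :=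
  (∀ i, Pool.Agent.Q138.AJ.R8865d3b.lin (a i) x.rep ≠ 0) ∧
    ∃ (m : ℕ) (L : Type) (_ : Field L) (_ : NumberField L) (_ : Algebra K L) (y : Fin r → L) (t : L)
      (E : Finset (Pool.Agent.Q138.AJ.R8865d3b.Flat a → ℕ)) (S : Finset ℕ), 1 ≤ m ∧ t ≠ 0 ∧
        (∀ i, y i ^ m = t * algebraMap K L (Pool.Agent.Q138.AJ.R8865d3b.lin (a i) x.rep)) ∧ E.Nonempty ∧
        (∀ p ∈ S, p.Prime) ∧
        Pool.Agent.Q138.AJ.R8865d3b.logDisc L + ∑ p ∈ S, Real.log p + c <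
          Pool.Agent.Q138.AJ.R8865d3b.canonicalHeight a x y + Pool.Agent.Q138.AJ.R8865d3b.proximity S y E +
            (n + 1 - κ) * Pool.Agent.Q138.AJ.R8865d3b.height x

/-- any `n + 1` of the forms are linearly independent -/
def General {q : ℕ} (a : Fin q → Fin (n + 1) → K) : Prop :=
  ∀ I : Finset (Fin q), I.card = n + 1 → LinearIndependent K (fun i : I => a i)

/-- the points near `z` -/
def Near {Y : Type} [MetricSpace Y] (p : ℙ K (Fin (n + 1) → K) → Y) (z : Y) (b τ : ℝ) : Set (ℙ K (Fin (n + 1) → K)) :=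
  {x | dist (p x) z ≤ b * x.mulHeight ^ (-τ)}

theorem Fails.mono {q : ℕ} {a : Fin q → Fin (n + 1) → K} {θ c c' : ℝ} (h : c' ≤ c) {x : ℙ K (Fin (n + 1) → K)}
    (hf : Fails a θ c x) : Fails a θ c' x := by
  obtain ⟨h1, m, L, i1, i2, i3, y, t, E, S, g1, g2, g3, g4, g5, g6⟩ := hf
  exact ⟨h1, m, L, i1, i2, i3, y, t, E, S, g1, g2, g3, g4, g5, by linarith⟩

theorem FailsKummer.mono {r : ℕ} {a : Fin r → Fin (n + 1) → K} {κ c c' : ℝ} (h : c' ≤ c) {x : ℙ K (Fin (n + 1) → K)}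
    (hf : FailsKummer a κ c x) : FailsKummer a κ c' x := by
  obtain ⟨h1, m, L, i1, i2, i3, y, t, E, S, g1, g2, g3, g4, g5, g6⟩ := hf
  exact ⟨h1, m, L, i1, i2, i3, y, t, E, S, g1, g2, g3, g4, g5, by linarith⟩

theorem exp_le (x : ℙ K (Fin (n + 1) → K)) {T : ℝ} (hT : 1 ≤ T) (hx : x.mulHeight ≤ T) :
    Real.exp (Real.log x.mulHeight / Module.finrank ℚ K) ≤ T ^ (1 / (Module.finrank ℚ K : ℝ)) := by
  have hm : (0 : ℝ) < Module.finrank ℚ K := by exact_mod_cast Module.finrank_pos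
  rw [Real.rpow_def_of_pos (by linarith)]
  refine Real.exp_le_exp.2 ?_
  rw [mul_one_div]
  exact div_le_div_of_nonneg_right (Real.log_le_log (lt_of_lt_of_le one_pos x.one_le_mulHeight) hx) hm.le

/-- powers of `B = T ^ (1 / m)` -/
theorem pow_eq {T M e ε : ℝ} (hT : 1 ≤ T) (m : ℕ) (hm : 0 < m) :
    M * (T ^ (1 / (m : ℝ))) ^ ((m : ℝ) * e + m * ε) = M * T ^ (e + ε) := by
  have hm0 : (0 : ℝ) < m := by exact_mod_cast hm
  rw [← Real.rpow_mul (by linarith)]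
  congr 2
  field_simp

theorem count_mono (hn : 1 ≤ n) {q : ℕ} (hq : n + 1 ≤ q) (a : Fin q → Fin (n + 1) → K) (ha : General a) {θ : ℝ} (hθ : 0 ≤ θ)
    (c ε : ℝ) (hε : 0 < ε) : ∃ M : ℝ, ∀ T : ℝ, 1 ≤ T →
      {x | x ∈ {x | Fails a θ c x} ∧ x.mulHeight ≤ T}.Finite ∧ (({x | x ∈ {x | Fails a θ c x} ∧ x.mulHeight ≤ T}).ncard : ℝ) ≤
        M * T ^ (Pool.Agent.Q138.AJ.R8865d3a.exponent n q θ + ε) := by
  have hm : 0 < Module.finrank ℚ K := Module.finrank_pos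
  have hm0 : (0 : ℝ) < Module.finrank ℚ K := by exact_mod_cast hm
  obtain ⟨M, hM⟩ := Pool.Agent.Q138.AJ.R8865d3a.result K n q hn hq a ha θ c (Module.finrank ℚ K * ε) hθ (by positivity)
  refine ⟨M, fun T hT => ?_⟩
  obtain ⟨h1, h2⟩ := hM (T ^ (1 / (Module.finrank ℚ K : ℝ))) (Real.one_le_rpow hT (by positivity))
  have hsub : {x | x ∈ {x | Fails a θ c x} ∧ x.mulHeight ≤ T} ⊆
      Pool.Agent.Q138.AJ.R8865d3a.exceptional a θ c (T ^ (1 / (Module.finrank ℚ K : ℝ))) := by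
    rintro x ⟨⟨h3, h4⟩, h5⟩
    exact ⟨h3, exp_le x hT h5, h4⟩
  refine ⟨h1.subset hsub, ?_⟩
  have h3 : (({x | x ∈ {x | Fails a θ c x} ∧ x.mulHeight ≤ T}).ncard : ℝ) ≤
      (Pool.Agent.Q138.AJ.R8865d3a.exceptional a θ c (T ^ (1 / (Module.finrank ℚ K : ℝ)))).ncard := by
    exact_mod_cast Set.ncard_le_ncard hsub h1
  exact h3.trans (h2.trans (le_of_eq (pow_eq hT _ hm)))

theorem count_kummer (hn : 1 ≤ n) {r : ℕ} (a : Fin r → Fin (n + 1) → K) (ha : ∀ i, a i ≠ 0)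
    (hspan : Submodule.span K (Set.range a) = ⊤) {κ : ℝ} (hκ0 : 0 ≤ κ) (hκ : κ ≤ 1 / 2)
    (c ε : ℝ) (hε : 0 < ε) : ∃ M : ℝ, ∀ T : ℝ, 1 ≤ T →
      {x | x ∈ {x | FailsKummer a κ c x} ∧ x.mulHeight ≤ T}.Finite ∧
        (({x | x ∈ {x | FailsKummer a κ c x} ∧ x.mulHeight ≤ T}).ncard : ℝ) ≤ M * T ^ (((n : ℝ) + 1 - κ) + ε) := by
  have hm : 0 < Module.finrank ℚ K := Module.finrank_pos
  have hm0 : (0 : ℝ) < Module.finrank ℚ K := by exact_mod_cast hm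
  obtain ⟨M, hM⟩ := Pool.Agent.Q138.AJ.R8865d3b.result K n r hn a ha hspan κ c (Module.finrank ℚ K * ε) hκ0 hκ (by positivity)
  refine ⟨M, fun T hT => ?_⟩
  obtain ⟨h1, h2⟩ := hM (T ^ (1 / (Module.finrank ℚ K : ℝ))) (Real.one_le_rpow hT (by positivity))
  have hsub : {x | x ∈ {x | FailsKummer a κ c x} ∧ x.mulHeight ≤ T} ⊆
      Pool.Agent.Q138.AJ.R8865d3b.exceptional a κ c (T ^ (1 / (Module.finrank ℚ K : ℝ))) := by
    rintro x ⟨⟨h3, h4⟩, h5⟩
    exact ⟨h3, exp_le x hT h5, h4⟩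
  refine ⟨h1.subset hsub, ?_⟩
  have h3 : (({x | x ∈ {x | FailsKummer a κ c x} ∧ x.mulHeight ≤ T}).ncard : ℝ) ≤
      (Pool.Agent.Q138.AJ.R8865d3b.exceptional a κ c (T ^ (1 / (Module.finrank ℚ K : ℝ)))).ncard := by
    exact_mod_cast Set.ncard_le_ncard hsub h1
  exact h3.trans (h2.trans (le_of_eq (pow_eq hT _ hm)))

end

theorem exponent_nonneg {n q : ℕ} (hn : 1 ≤ n) (hq : n + 1 ≤ q) {θ : ℝ} (hθ : 0 ≤ θ) :
    0 ≤ Pool.Agent.Q138.AJ.R8865d3a.exponent n q θ := by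
  unfold Pool.Agent.Q138.AJ.R8865d3a.exponent
  have hq1 : (n : ℝ) + 1 ≤ q := by exact_mod_cast hq
  have hn1 : (1 : ℝ) ≤ n := by exact_mod_cast hn
  refine le_min (mul_nonneg hθ ?_) (mul_nonneg (by positivity) ?_)
  · have h1 : (0 : ℝ) < (q.choose (n + 1) : ℝ) := by exact_mod_cast Nat.choose_pos hq
    have h2 : ((q - n).choose (n + 1) : ℝ) ≤ (q.choose (n + 1) : ℝ) := by
      exact_mod_cast Nat.choose_le_choose (n + 1) (Nat.sub_le q n)
    have h3 : ((q - n).choose (n + 1) : ℝ) / (q.choose (n + 1) : ℝ) ≤ 1 := (div_le_one h1).2 h2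
    linarith
  · have h1 : (0 : ℝ) < q * (q - 1) := by nlinarith
    have h3 : (n : ℝ) * (q - θ) / (q * (q - 1)) ≤ 1 := by
      rw [div_le_one h1]
      nlinarith
    linarith

theorem exponent_le {n q : ℕ} (hq : n + 1 ≤ q) {θ : ℝ} (hθ : 0 ≤ θ) : Pool.Agent.Q138.AJ.R8865d3a.exponent n q θ ≤ θ := by
  unfold Pool.Agent.Q138.AJ.R8865d3a.exponent
  refine (min_le_left _ _).trans ?_
  have h1 : (0 : ℝ) ≤ ((q - n).choose (n + 1) : ℝ) / (q.choose (n + 1) : ℝ) := by positivity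
  nlinarith

/-- **Theorem.** -/
theorem result (K : Type) [Field K] [NumberField K] (n : ℕ) (hn : 1 ≤ n) (Y : Type) [MetricSpace Y] [MeasurableSpace Y]
    [BorelSpace Y] (p : ℙ K (Fin (n + 1) → K) → Y) :
    (∀ (q : ℕ) (θ τ : ℝ), n + 1 ≤ q → 0 ≤ θ → 0 < τ →
      ∃ Z : Set Y, dimH Z ≤ ENNReal.ofReal (Pool.Agent.Q138.AJ.R8865d3a.exponent n q θ / τ) ∧ ∀ z, z ∉ Z →
        ∀ a : Fin q → Fin (n + 1) → K, General a → ∀ b c : ℝ, {x | x ∈ Near p z b τ ∧ Fails a θ c x}.Finite) ∧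
    (∃ Z : Set Y, dimH Z = 0 ∧ ∀ z, z ∉ Z → ∀ τ b : ℝ, 0 < τ → ∃ N : ℕ, ∀ (q : ℕ) (a : Fin q → Fin (n + 1) → K),
      n + 1 ≤ q → General a → ∀ c : ℝ, {x | x ∈ Near p z b τ ∧ Fails a (1 / ((N : ℝ) + 1)) c x}.Finite) ∧
    ∀ (κ τ : ℝ), 0 ≤ κ → κ ≤ 1 / 2 → 0 < τ →
      ∃ Z : Set Y, dimH Z ≤ ENNReal.ofReal (((n : ℝ) + 1 - κ) / τ) ∧ ∀ z, z ∉ Z →
        ∀ (r : ℕ) (a : Fin r → Fin (n + 1) → K), (∀ i, a i ≠ 0) → Submodule.span K (Set.range a) = ⊤ →
          ∀ b c : ℝ, {x | x ∈ Near p z b τ ∧ FailsKummer a κ c x}.Finite := by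
  have hK := countable_field K
  have hone : ∀ x : ℙ K (Fin (n + 1) → K), 1 ≤ x.mulHeight := fun x => x.one_le_mulHeight
  refine ⟨?_, ?_, ?_⟩
  · intro q θ τ hq hθ hτ
    have h : ∀ i : (Fin q → Fin (n + 1) → K) × ℕ, ∃ Z : Set Y,
        dimH Z ≤ ENNReal.ofReal (Pool.Agent.Q138.AJ.R8865d3a.exponent n q θ / τ) ∧ ∀ z, z ∉ Z → General i.1 → ∀ b : ℝ,
          {x | x ∈ {x | Fails i.1 θ (-(i.2 : ℝ)) x} ∧ dist (p x) z ≤ b * x.mulHeight ^ (-τ)}.Finite := by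
      rintro ⟨a, m⟩
      by_cases ha : General a
      · obtain ⟨Z, hZ, hz⟩ := fin_lim p {x | Fails a θ (-(m : ℝ)) x} (fun x => x.mulHeight) hone _
          (exponent_nonneg hn hq hθ) (count_mono hn hq a ha hθ _) τ hτ
        exact ⟨Z, hZ, fun z hzZ _ => hz z hzZ⟩
      · exact ⟨∅, by simp, fun z _ h => absurd h ha⟩
    choose Z hZ hz using h
    refine ⟨⋃ i, Z i, ?_, fun z hzZ a ha b c => ?_⟩
    · rw [dimH_iUnion]
      exact iSup_le hZ
    · obtain ⟨m, hm⟩ := exists_nat_ge (-c)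
      refine (hz (a, m) z (fun hh => hzZ (Set.mem_iUnion.2 ⟨_, hh⟩)) ha b).subset ?_
      rintro x ⟨h2, h3⟩
      exact ⟨h3.mono (by linarith), h2⟩
  · obtain ⟨Z, hZ, hz⟩ := fin_eps_all (J := {i : (Σ q : ℕ, (Fin q → Fin (n + 1) → K)) × ℕ // n + 1 ≤ i.1.1 ∧ General i.1.2}) p
      (fun i N => {x | Fails i.1.1.2 (1 / ((N : ℝ) + 1)) (-(i.1.2 : ℝ)) x}) (fun x => x.mulHeight) hone (by
        intro ε hε
        obtain ⟨N, hN⟩ := exists_nat_one_div_lt (half_pos hε)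
        refine ⟨N, ?_⟩
        rintro ⟨⟨⟨q, a⟩, m⟩, hq, ha⟩
        obtain ⟨M, hM⟩ := count_mono hn hq a ha (show (0 : ℝ) ≤ 1 / ((N : ℝ) + 1) by positivity) (-(m : ℝ)) (ε / 2) (by positivity)
        refine ⟨|M|, fun T hT => ?_⟩
        obtain ⟨h3, h4⟩ := hM T hT
        refine ⟨h3, h4.trans ?_⟩
        have hT0 : 0 ≤ T := by linarith
        refine (mul_le_mul_of_nonneg_right (le_abs_self M) (Real.rpow_nonneg hT0 _)).trans
          (mul_le_mul_of_nonneg_left (Real.rpow_le_rpow_of_exponent_le hT ?_) (abs_nonneg _))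
        have := exponent_le hq (show (0 : ℝ) ≤ 1 / ((N : ℝ) + 1) by positivity)
        linarith)
    refine ⟨Z, hZ, fun z hzZ τ b hτ => ?_⟩
    obtain ⟨N, hN⟩ := hz z hzZ τ b hτ
    refine ⟨N, fun q a hq ha c => ?_⟩
    obtain ⟨m, hm⟩ := exists_nat_ge (-c)
    refine (hN ⟨(⟨q, a⟩, m), hq, ha⟩).subset ?_
    rintro x ⟨h2, h3⟩
    exact ⟨h3.mono (by simp only; linarith), h2⟩
  · intro κ τ hκ0 hκ hτ
    have h : ∀ i : (Σ r : ℕ, (Fin r → Fin (n + 1) → K)) × ℕ, ∃ Z : Set Y,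
        dimH Z ≤ ENNReal.ofReal (((n : ℝ) + 1 - κ) / τ) ∧ ∀ z, z ∉ Z → (∀ j, i.1.2 j ≠ 0) →
          Submodule.span K (Set.range i.1.2) = ⊤ → ∀ b : ℝ,
          {x | x ∈ {x | FailsKummer i.1.2 κ (-(i.2 : ℝ)) x} ∧ dist (p x) z ≤ b * x.mulHeight ^ (-τ)}.Finite := by
      rintro ⟨⟨r, a⟩, m⟩
      by_cases ha : (∀ j, a j ≠ 0) ∧ Submodule.span K (Set.range a) = ⊤
      · obtain ⟨Z, hZ, hz⟩ := fin_lim p {x | FailsKummer a κ (-(m : ℝ)) x} (fun x => x.mulHeight) hone ((n : ℝ) + 1 - κ)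
          (by have : (0 : ℝ) ≤ n := by positivity
              linarith) (count_kummer hn a ha.1 ha.2 hκ0 hκ _) τ hτ
        exact ⟨Z, hZ, fun z hzZ _ _ => hz z hzZ⟩
      · exact ⟨∅, by simp, fun z _ h1 h2 => absurd ⟨h1, h2⟩ ha⟩
    choose Z hZ hz using h
    refine ⟨⋃ i, Z i, ?_, fun z hzZ r a ha1 ha2 b c => ?_⟩
    · rw [dimH_iUnion]
      exact iSup_le hZ
    · obtain ⟨m, hm⟩ := exists_nat_ge (-c)
      refine (hz (⟨r, a⟩, m) z (fun hh => hzZ (Set.mem_iUnion.2 ⟨_, hh⟩)) ha1 ha2 b).subset ?_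
      rintro x ⟨h2, h3⟩
      exact ⟨h3.mono (by simp only; linarith), h2⟩

end Pool.Agent.Results.MP_8865d3_nt.PointsNearGivenPoints
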