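import Mathlib
import Pool.Agent.Q128.SDF.Mult2
import Pool.Agent.Q128.SDF.Comp
import Pool.Agent.Q128.SDF.Line

/-!
# Vojta's conjecture with multiplier ideals for all ideals on all curves at the points above the
points of the line which are composed of numbers with small digits

Let `X` be a smooth projective curve over a number field and `f : X → ℙ¹` a finite map of degree `N`
over `ℚ` which is unramified outside the fibres over three rational points `a_0, a_1, a_2` (`≠ ∞`).
By Belyi's theorem such a map exists, and every ideal sheaf `I ≠ 0` on `X` has its support in the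
fibres over the `a_j` for some such map. Let `A` be the ring of functions on `X` with poles only over
`∞`: a Dedekind domain, finite over `ℚ[f]`. Then `I` is an ideal of `A` whose radical contains
`∏ (f - a_j)`. If `I = ∏ 𝔭 ^ m_𝔭`, then the multiplier ideal `I⁻ = lim I_{1 - ε}` is
`∏ 𝔭 ^ (m_𝔭 - 1)`, the ideal with `I⁻ * rad I = I`.

The points `P` of `X` (not over `∞`) over a number field `L` are the homomorphisms `φ : A → L`. If
`g_0, …, g_r` generate `I` and `g_0` is a nonconstant polynomial in `f`, then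
`λ_I(P, v) = max(0, - log max_i |g_i(P)|_v)` is a local height of `I` (the last condition makes
`λ_I` vanish near the points over `∞`).

We prove the inequality of Vojta
`h_{K_X}(P) + ∑_{v ∈ S} λ_I(P, v) - ∑_{v ∈ S} λ_{I⁻}(P, v) ≤ d(P) + ε h(P)`
for all ideals `I` and all points `P`, of every degree and over all number fields `L`, above the
points `x ∈ K`, `K ⊆ L`, for which the three numbers `x - a_j` are, up to fixed constants and a common
factor, composed of numbers with small digits in a large base `t`: without an exceptional set, and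
with the gain `(1 - ε) log |N(t)| / [K : ℚ]`.
-/

set_option autoImplicit false

namespace Pool.Agent.Results.MP_8865d3_nt.SmallDigitPoints

open IsDedekindDomain NumberField
open scoped Polynomial
open Polynomial (X C)
open Pool.Agent.Results.MP_71c16a_nt.AllCurvesProximity (height coord logDisc degree)
open Pool.Agent.Results.MP_a793bb_nt.SmallDigitPoints (logN)
open Pool.Agent.Results.MP_71c16a_nt.SmallDigitPoints (Composed)

/-- `max (0, - log max_i c_i)` -/
noncomputable def minusLog {s : ℕ} (c : Fin (s + 1) → ℝ) : ℝ := max 0 (-Real.log (⨆ i, c i))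

open Classical in
/-- The sum over the infinite place and the primes in `S` of the local heights at the point `P = φ` of
the ideal generated by `g_0, …, g_r`: the sum over the infinite places `w` of `L` (with
`mult w = [L_w : ℝ]`) and the primes `v` of `L` above the primes of `S` of
`max (0, - log max_i |g_i(P)|)`, divided by `[L : ℚ]`. The absolute values are normalised so that the
product formula holds. -/
noncomputable def localHeights {A : Type} [CommRing A] (S : Finset ℕ) {r : ℕ}
    (g : Fin (r + 1) → A) (L : Type) [Field L] [NumberField L] (φ : A →+* L) : ℝ :=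
  ((∑ w : InfinitePlace L, (w.mult : ℝ) * minusLog (fun i => w (φ (g i)))) +
    ∑ᶠ v : HeightOneSpectrum (𝓞 L), if ∃ p ∈ S, (p : 𝓞 L) ∈ v.asIdeal then
      minusLog (fun i => FinitePlace.mk v (φ (g i))) else 0) / Module.finrank ℚ L

private lemma above_finite {L : Type} [Field L] [NumberField L] (S : Finset ℕ)
    (hS : ∀ p ∈ S, p.Prime) :
    {v : HeightOneSpectrum (𝓞 L) | ∃ p ∈ S, (p : 𝓞 L) ∈ v.asIdeal}.Finite := by
  have h0 : ((∏ p ∈ S, p : ℕ) : 𝓞 L) ≠ 0 := by
    exact_mod_cast Finset.prod_ne_zero_iff.mpr fun p hp => (hS p hp).ne_zero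
  refine (Pool.Agent.Q103.SD.NF.primes_finite h0).subset ?_
  rintro v ⟨p, hp, hpv⟩
  show ((∏ p ∈ S, p : ℕ) : 𝓞 L) ∈ v.asIdeal
  obtain ⟨c, hc⟩ := Finset.dvd_prod_of_mem (fun p => p) hp
  rw [hc]
  push_cast
  exact Ideal.mul_mem_right _ _ hpv

private lemma finsum_if {L : Type} [Field L] [NumberField L] (S : Finset ℕ)
    (hS : ∀ p ∈ S, p.Prime) (F : HeightOneSpectrum (𝓞 L) → ℝ)
    (d : ∀ v : HeightOneSpectrum (𝓞 L), Decidable (∃ p ∈ S, (p : 𝓞 L) ∈ v.asIdeal)) :
    (∑ᶠ v : HeightOneSpectrum (𝓞 L), @ite ℝ (∃ p ∈ S, (p : 𝓞 L) ∈ v.asIdeal) (d v) (F v) 0) =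
      ∑ v ∈ (above_finite (L := L) S hS).toFinset, F v := by
  rw [finsum_eq_sum_of_support_subset (s := (above_finite (L := L) S hS).toFinset)]
  · refine Finset.sum_congr rfl fun v hv => ?_
    rw [Set.Finite.mem_toFinset] at hv
    exact if_pos hv
  · intro v hv
    rw [Function.mem_support] at hv
    rw [Finset.mem_coe, Set.Finite.mem_toFinset]
    by_contra h
    exact hv (if_neg h)

/-- the local heights of `I` are at most those of `I⁻` and of the reduced fibres -/
private lemma heights_le {A : Type} [CommRing A] [Algebra ℚ[X] A] [Module.Finite ℚ[X] A] {r r' : ℕ}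
    (g : Fin (r + 1) → A) (g' : Fin (r' + 1) → A) (u : Fin 3 → ℕ) (y : ∀ j, Fin (u j + 1) → A)
    (h : ℚ[X]) (hh : 0 < h.natDegree) (hg : g 0 = algebraMap ℚ[X] A h)
    (hprod : ∀ i k0 k1 k2, g' i * (y 0 k0 * (y 1 k1 * y 2 k2)) ∈ Ideal.span (Set.range g)) :
    ∃ C : ℝ, 0 ≤ C ∧ ∀ (L : Type) [Field L] [NumberField L] (φ : A →+* L) (S : Finset ℕ),
      (∀ p ∈ S, p.Prime) → (∃ i, φ (g' i) ≠ 0) → (∀ j, ∃ k, φ (y j k) ≠ 0) →
      localHeights S g L φ ≤ localHeights S g' L φ +
        Pool.Agent.Results.MP_71c16a_nt.AllCurvesProximity.proximity S u y L φ + C := by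
  classical
  obtain ⟨N, B, hN, hB, hmain⟩ := Pool.Agent.Q128.SDF.compare g g' u y h hh hg hprod
  have hN1 : (1 : ℝ) ≤ N := by exact_mod_cast Nat.one_le_iff_ne_zero.mpr hN
  refine ⟨B + Real.log N, add_nonneg hB (Real.log_nonneg hN1), ?_⟩
  intro L _ _ φ S hS h1 h2
  obtain ⟨hf, hi⟩ := hmain L φ h1 h2
  have hd : (0 : ℝ) < Module.finrank ℚ L := by exact_mod_cast Module.finrank_pos
  have e1 : ∑ w : InfinitePlace L, (w.mult : ℝ) * minusLog (fun i => w (φ (g i))) ≤
      ∑ w : InfinitePlace L, (w.mult : ℝ) * minusLog (fun i => w (φ (g' i))) +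
      ∑ w : InfinitePlace L, (w.mult : ℝ) * ∑ j, minusLog (fun k => w (φ (y j k))) +
        Module.finrank ℚ L * B := by
    have hm : (Module.finrank ℚ L : ℝ) * B = ∑ w : InfinitePlace L, (w.mult : ℝ) * B := by
      rw [← Finset.sum_mul, ← InfinitePlace.sum_mult_eq]
      push_cast
      rfl
    rw [hm, ← Finset.sum_add_distrib, ← Finset.sum_add_distrib]
    apply Finset.sum_le_sum
    intro w _
    have h3 := mul_le_mul_of_nonneg_left (hi w) (Nat.cast_nonneg (α := ℝ) w.mult)
    rw [mul_add, mul_add] at h3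
    exact h3
  have e2 : (∑ᶠ v : HeightOneSpectrum (𝓞 L), if ∃ p ∈ S, (p : 𝓞 L) ∈ v.asIdeal then
      minusLog (fun i => FinitePlace.mk v (φ (g i))) else 0) ≤
      (∑ᶠ v : HeightOneSpectrum (𝓞 L), if ∃ p ∈ S, (p : 𝓞 L) ∈ v.asIdeal then
        minusLog (fun i => FinitePlace.mk v (φ (g' i))) else 0) +
      (∑ᶠ v : HeightOneSpectrum (𝓞 L), if ∃ p ∈ S, (p : 𝓞 L) ∈ v.asIdeal then
        ∑ j, minusLog (fun k => FinitePlace.mk v (φ (y j k))) else 0) +
      Module.finrank ℚ L * Real.log N := by
    rw [finsum_if S hS, finsum_if S hS, finsum_if S hS]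
    have h3 := Pool.Agent.Q128.SDF.sum_fv_nat (L := L) N hN (above_finite (L := L) S hS).toFinset
    refine le_trans ?_ (add_le_add_right h3 _)
    rw [← Finset.sum_add_distrib, ← Finset.sum_add_distrib]
    apply Finset.sum_le_sum
    intro v _
    exact hf v
  have e3 : localHeights S g L φ * Module.finrank ℚ L ≤ (localHeights S g' L φ +
      Pool.Agent.Results.MP_71c16a_nt.AllCurvesProximity.proximity S u y L φ +
      (B + Real.log N)) * Module.finrank ℚ L := by
    unfold localHeights Pool.Agent.Results.MP_71c16a_nt.AllCurvesProximity.proximity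
    rw [div_mul_cancel₀ _ hd.ne', add_mul, add_mul, div_mul_cancel₀ _ hd.ne',
      div_mul_cancel₀ _ hd.ne']
    have e4 := add_le_add e1 e2
    refine e4.trans (le_of_eq ?_)
    have e5 : ∀ w : InfinitePlace L, ∑ j, minusLog (fun k => w (φ (y j k))) =
        ∑ j, Pool.Agent.Results.MP_71c16a_nt.AllCurvesProximity.minusLog
          (fun k => w (φ (y j k))) := fun w => rfl
    have e6 : ∀ v : HeightOneSpectrum (𝓞 L),
        ∑ j, minusLog (fun k => FinitePlace.mk v (φ (y j k))) =
        ∑ j, Pool.Agent.Results.MP_71c16a_nt.AllCurvesProximity.minusLog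
          (fun k => FinitePlace.mk v (φ (y j k))) := fun v => rfl
    simp only [e5, e6]
    ring
  exact le_of_mul_le_mul_right e3 hd

private lemma le_of_mul_eq {A : Type} [CommRing A] {I I' J : Ideal A} (h : I' * J = I) :
    I ≤ I' := by
  subst h
  exact Ideal.mul_le_left

/-- **Vojta's inequality with multiplier ideals above the points composed of numbers with small
digits.** Let `A` be a Dedekind domain, finite over `ℚ[f]` and containing it (the ring of functions of
a smooth affine curve which is finite over the `f`-line), let `a_0, a_1, a_2` be distinct rational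
numbers and `y_{j 0} = f - a_j, y_{j 1}, …` elements of the radical of the ideal `(f - a_j)`, for
instance generators; they only occur in `degree = (deg K_X) / N + 2`.

(1) Let `I` be an ideal of `A` with support in the fibres over the `a_j`, let `I⁻ * rad I = I`, and
let `g` and `g'` be generators of `I` and `I⁻`, `g_0` being a nonconstant polynomial in `f`. For all
`D` and `ε > 0` there are `δ > 0` and `T₀` such that
`∑_S λ_I - ∑_S λ_{I⁻} + (degree - 2 - ε) h(x) + (1 - ε) log |N(t)| / [K : ℚ] ≤ d(L) + ∑_S log p`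
for all `T ≥ T₀`, all number fields `K`, all bases `t`, all `x ∈ K` composed of numbers with small
digits, all number fields `L` containing `K`, all points `P` of the curve over `L` with `f(P) = x` and
all finite sets `S` of primes. The constants do not depend on `K`, `L` and their degrees.

(2) There is `c > 0` such that for all `D ≥ 2`, `δ > 0` and `T ≥ 1` and all large `B` at least `c B`
rational numbers `x` with `h(x) ≤ log B` are composed of numbers with small digits in some base. -/
theorem result :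
    ∀ (A : Type) [CommRing A] [IsDedekindDomain A] [Algebra ℚ A] [Algebra ℚ[X] A]
      [IsScalarTower ℚ ℚ[X] A] [Module.Finite ℚ[X] A] [FaithfulSMul ℚ[X] A]
      (a : Fin 3 → ℚ), Function.Injective a →
    (∀ (u : Fin 3 → ℕ) (y : ∀ j, Fin (u j + 1) → A),
      (∀ j, y j 0 = coord A - algebraMap ℚ[X] A (C (a j))) →
      (∀ j i, y j i ∈ (Ideal.span {coord A - algebraMap ℚ[X] A (C (a j))}).radical) →
      ∀ I I' : Ideal A, ∏ j, (coord A - algebraMap ℚ[X] A (C (a j))) ∈ I.radical →
      I' * I.radical = I →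
      ∀ (r r' : ℕ) (g : Fin (r + 1) → A) (g' : Fin (r' + 1) → A),
      Ideal.span (Set.range g) = I → Ideal.span (Set.range g') = I' →
      (∃ h : ℚ[X], 0 < h.natDegree ∧ g 0 = algebraMap ℚ[X] A h) →
      ∀ (D : ℕ) (ε : ℝ), 0 < ε → ∃ δ : ℝ, 0 < δ ∧ ∃ T₀ : ℝ, 1 ≤ T₀ ∧ ∀ T : ℝ, T₀ ≤ T →
      ∀ (K : Type) [Field K] [NumberField K] (t : 𝓞 K) (x : K), Composed a D δ T t x →
      ∀ (L : Type) [Field L] [NumberField L] [Algebra K L] (φ : A →+* L) (S : Finset ℕ),
        φ (coord A) = algebraMap K L x → (∀ p ∈ S, p.Prime) →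
        localHeights S g L φ - localHeights S g' L φ + (degree u y - 2 - ε) * height x +
          (1 - ε) * logN t ≤ logDisc L + ∑ p ∈ S, Real.log p) ∧
    (∃ c : ℝ, 0 < c ∧ ∀ (D : ℕ) (δ T : ℝ), 2 ≤ D → 0 < δ → 1 ≤ T → ∃ X₀ : ℝ, ∀ B : ℝ, X₀ ≤ B →
      ∃ E : Finset ℚ, c * B ≤ E.card ∧ ∀ x ∈ E, height x ≤ Real.log B ∧
        ∃ t : 𝓞 ℚ, Composed a D δ T t x) := by
  intro A _ _ _ _ _ _ _ a ha
  constructor
  · intro u y hy0 hyr I I' hI hI' r r' g g' hg hg' hh D ε hε
    obtain ⟨h, hdeg, hg0⟩ := hh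
    -- the products are in `I`
    have hprod : ∀ i k0 k1 k2, g' i * (y 0 k0 * (y 1 k1 * y 2 k2)) ∈ Ideal.span (Set.range g) := by
      intro i k0 k1 k2
      obtain ⟨z, hz⟩ : ∃ z, z = y 0 k0 * (y 1 k1 * y 2 k2) := ⟨_, rfl⟩
      have hz0 : z ∈ (Ideal.span {coord A - algebraMap ℚ[X] A (C (a 0))}).radical := by
        rw [hz]
        exact Ideal.mul_mem_right _ _ (hyr 0 k0)
      have hz1 : z ∈ (Ideal.span {coord A - algebraMap ℚ[X] A (C (a 1))}).radical := by
        rw [hz]
        exact Ideal.mul_mem_left _ _ (Ideal.mul_mem_right _ _ (hyr 1 k1))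
      have hz2 : z ∈ (Ideal.span {coord A - algebraMap ℚ[X] A (C (a 2))}).radical := by
        rw [hz]
        exact Ideal.mul_mem_left _ _ (Ideal.mul_mem_left _ _ (hyr 2 k2))
      obtain ⟨n0, q0⟩ := hz0
      obtain ⟨n1, q1⟩ := hz1
      obtain ⟨n2, q2⟩ := hz2
      obtain ⟨c0, q0⟩ := Ideal.mem_span_singleton.1 q0
      obtain ⟨c1, q1⟩ := Ideal.mem_span_singleton.1 q1
      obtain ⟨c2, q2⟩ := Ideal.mem_span_singleton.1 q2
      have hzI : z ∈ I.radical := by
        rw [← Ideal.radical_idem]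
        refine ⟨n0 + n1 + n2, ?_⟩
        have e : z ^ (n0 + n1 + n2) = (c0 * c1 * c2) *
            ∏ j, (coord A - algebraMap ℚ[X] A (C (a j))) := by
          rw [pow_add, pow_add, q0, q1, q2, Fin.prod_univ_three]
          ring
        rw [e]
        exact Ideal.mul_mem_left _ _ hI
      rw [hg, ← hz, ← hI']
      apply Ideal.mul_mem_mul _ hzI
      rw [← hg']
      exact Ideal.subset_span ⟨i, rfl⟩
    obtain ⟨C₁, hC₁, hheights⟩ := heights_le g g' u y h hdeg hg0 hprod
    obtain ⟨η, hη⟩ : ∃ η, η = ε / 2 := ⟨_, rfl⟩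
    have hη0 : 0 < η := by rw [hη]; positivity
    obtain ⟨δ₁, hδ₁, T₁, hT₁, hmain⟩ := Pool.Agent.Results.MP_71c16a_nt.SmallDigitPoints.result A a
      ha u y hy0 hyr D η hη0
    obtain ⟨δ₂, hδ₂, T₂, hT₂, hline⟩ := Pool.Agent.Q128.SDF.line a ha D 1 one_pos
    refine ⟨min δ₁ δ₂, lt_min hδ₁ hδ₂, max (max T₁ T₂) (Real.exp (C₁ / η)),
      hT₁.trans ((le_max_left _ _).trans (le_max_left _ _)), ?_⟩
    intro T hT K _ _ t x hx L _ _ _ φ S hφ hS
    have hTT₁ : T₁ ≤ T := ((le_max_left _ _).trans (le_max_left _ _)).trans hT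
    have hTT₂ : T₂ ≤ T := ((le_max_right _ _).trans (le_max_left _ _)).trans hT
    have hT1 : 1 ≤ T := hT₁.trans hTT₁
    have hlogT : C₁ ≤ η * Real.log T := by
      have h3 := Real.log_le_log (Real.exp_pos _) ((le_max_right _ _).trans hT)
      rw [Real.log_exp, div_le_iff₀ hη0] at h3
      linarith
    obtain ⟨n, F, b, e, s1, s2, s3, s4⟩ := hx
    have hx1 : Composed a D δ₁ T t x :=
      ⟨n, F, b, e, Pool.Agent.Q128.SDF.small_mono hT1 (min_le_left _ _) s1, s2, s3, s4⟩
    have k1 := hmain T hTT₁ K t x hx1 L φ S hφ hS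
    obtain ⟨hxa, -, hNt, -, -⟩ := hline T hTT₂ K t _ x
      ⟨n, F, b, e, Pool.Agent.Q128.SDF.small_mono hT1 (min_le_right _ _) s1, s2, s3, rfl⟩ s4
    have hval : ∀ j, φ (coord A - algebraMap ℚ[X] A (C (a j))) = algebraMap K L (x - (a j : K)) := by
      intro j
      have h4 : φ (algebraMap ℚ[X] A (C (a j))) = (a j : L) := by
        have h5 := map_ratCast ((φ.comp (algebraMap ℚ[X] A)).comp (C : ℚ →+* ℚ[X])) (a j)
        have h6 : ((a j : ℚ) : ℚ) = a j := Rat.cast_id _
        rw [h6] at h5
        exact h5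
      rw [map_sub, hφ, h4, map_sub, map_ratCast]
    have hval0 : ∀ j, φ (coord A - algebraMap ℚ[X] A (C (a j))) ≠ 0 := by
      intro j
      rw [hval j]
      exact (map_ne_zero _).2 (sub_ne_zero.2 (hxa j))
    have k2 := hheights L φ S hS (by
      by_contra hcon
      push Not at hcon
      obtain ⟨m, hm⟩ := hI
      have h4 : (∏ j, (coord A - algebraMap ℚ[X] A (C (a j)))) ^ m ∈ I' := by
        exact le_of_mul_eq hI' hm
      rw [← hg'] at h4
      obtain ⟨c, hc⟩ := (Ideal.mem_span_range_iff_exists_fun).1 h4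
      have h6 := congrArg φ hc
      rw [map_sum, map_pow, map_prod] at h6
      have h7 : ∑ i, φ (c i * g' i) = 0 :=
        Finset.sum_eq_zero fun i _ => by rw [map_mul, hcon i, mul_zero]
      rw [h7] at h6
      exact pow_ne_zero m (Finset.prod_ne_zero_iff.2 fun j _ => hval0 j) h6.symm) (by
      intro j
      refine ⟨0, ?_⟩
      rw [hy0 j]
      exact hval0 j)
    have hd : (0 : ℝ) < Module.finrank ℚ K := by exact_mod_cast Module.finrank_pos
    have hNt' : Real.log T ≤ logN t := by
      have h4 : Pool.Agent.Q103.SDJ.lN t = Module.finrank ℚ K * logN t := by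
        unfold Pool.Agent.Q103.SDJ.lN Pool.Agent.Results.MP_a793bb_nt.SmallDigitPoints.logN
        field_simp
      rw [h4] at hNt
      exact le_of_mul_le_mul_left hNt hd
    have h0 : 0 ≤ height x := by
      have h5 := Height.zero_le_logHeight₁ x
      have h6 : Height.logHeight₁ x = Module.finrank ℚ K * height x :=
        Pool.Agent.W223.AC.MK.height_eq x
      rw [h6] at h5
      exact (mul_nonneg_iff_of_pos_left hd).mp h5
    have k3 : η * Real.log T ≤ η * logN t := mul_le_mul_of_nonneg_left hNt' hη0.le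
    have k4 : η * height x ≤ ε * height x := mul_le_mul_of_nonneg_right (by rw [hη]; linarith) h0
    have k5 : ε = 2 * η := by rw [hη]; ring
    rw [k5] at k4 ⊢
    linarith
  · obtain ⟨c, hc, h⟩ := Pool.Agent.Q128.SDF.many_x a ha
    refine ⟨c, hc, fun D δ T hD hδ hT => ?_⟩
    obtain ⟨X₀, h1⟩ := h D δ T hD hδ hT
    refine ⟨X₀, fun B hB => ?_⟩
    obtain ⟨E, hE, h2⟩ := h1 B hB
    refine ⟨E, hE, fun x hx => ?_⟩
    obtain ⟨h3, h4⟩ := h2 x hx
    refine ⟨?_, h4⟩
    have h5 : Height.logHeight₁ x = Module.finrank ℚ ℚ * height x :=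
      Pool.Agent.W223.AC.MK.height_eq x
    rw [Module.finrank_self, Nat.cast_one, one_mul] at h5
    rw [← h5]
    exact h3

end Pool.Agent.Results.MP_8865d3_nt.SmallDigitPoints
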